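import Pool.Agent.Helper11.LE.Goals3

/-!
# Project LE (MP_fc6b1e_nt), packet END: the descent ends
-/

namespace Pool.Agent.Helper11.LE

open NumberField Polynomial Module IsDedekindDomain TensorProduct Pool.Agent.Helper51.SigLeo
open Pool.Agent.Helper51.RP Pool.Agent.Helper42.RD

theorem log_one {p : ℕ} {k : Type} [NormedField k] (L : IwasawaLog p k) : L.toFun 1 = 0 := by
  have h := L.map_mul 1 1
  rw [mul_one] at h
  exact left_eq_add.1 h

theorem one_sel {p : ℕ} {k : Type} [NormedField k] (L : IwasawaLog p k) {K : Type} [Field K]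
    [NumberField K] (T : Set (K →+* k)) (R : Set (HeightOneSpectrum (𝓞 K)))
    (al : HeightOneSpectrum (𝓞 K) → K) : Sel1 L T R al 1 := by
  refine ⟨fun w ↦ ⟨fun _ ↦ ?_, fun _ ↦ ⟨0, 1, ?_⟩⟩, fun N ↦ ⟨1, fun τ _ ↦ ⟨?_, ?_⟩⟩⟩
  · simp [ordv]
  · simp
  · simp
  · have h1 : Units.map (τ : K →* k) (1 * 1 ^ p) = 1 := by simp
    rw [h1, log_one, norm_zero]
    positivity

theorem l_end (hFIN : L_FIN) : L_END := by
  intro p hp k _ _ L K K₁ _ _ _ _ _ ε T hstep w₀ h0
  have key : ∀ (n : ℕ) (R : Set (HeightOneSpectrum (𝓞 K))) (al : HeightOneSpectrum (𝓞 K) → K)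
      (a : 𝓞 K₁), St p ε R al a → w₀ ∈ R →
      (∀ F : Finset Kˣ, Inc p (Sel1 L T R al) F → F.card ≤ n) →
      ∃ (R : Set (HeightOneSpectrum (𝓞 K))) (al : HeightOneSpectrum (𝓞 K) → K) (a : 𝓞 K₁),
        St p ε R al a ∧ w₀ ∈ R ∧ Good L T R al a := by
    intro n
    induction n using Nat.strong_induction_on with
    | _ n ih =>
      intro R al a hst hw hb
      by_cases hg : Good L T R al a
      · exact ⟨R, al, a, hst, hw, hg⟩
      · obtain ⟨R', al', a', hst', hsub, hcnt⟩ := hstep R al a hst ⟨w₀, hw⟩ hg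
        have h1 : 1 ≤ n := by
          have := hb {1} ⟨fun x hx ↦ ?_, fun x hx y hy hne ↦ ?_⟩
          · simpa using this
          · rw [Finset.mem_singleton.1 hx]
            exact one_sel L T R al
          · rw [Finset.mem_singleton.1 hx, Finset.mem_singleton.1 hy] at hne
            exact absurd rfl hne
        have hp2 := hp.out.two_le
        refine ih (n / p) (Nat.div_lt_self h1 hp2) R' al' a' hst' (hsub hw) fun F hF ↦ ?_
        rw [Nat.le_div_iff_mul_le (by omega), mul_comm]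
        exact hcnt n hb F hF
  obtain ⟨R, al, a, hst, hw⟩ := h0
  obtain ⟨n, hn⟩ := hFIN p k L K T R al hst.dat
  exact key n R al a hst hw hn

end Pool.Agent.Helper11.LE
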