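import Pool.Agent.Helper11.LE.Defs

/-!
# Project LE, parts I and II: from a relation between logarithms to a Selmer element; counting

Every statement is a `def ... : Prop` with its complete proof in the docstring. `RP.S_X` are the
statements of Helper51, `RD.D_X`, `RD.E_X` those of Helper42, `RS.S_X`, `RSP.SP_X` those of Helper38.
-/

namespace Pool.Agent.Helper11.LE

open NumberField Polynomial Module IsDedekindDomain TensorProduct Pool.Agent.Helper51.SigLeo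
open Pool.Agent.Helper51.RP Pool.Agent.Helper42.RD
open Pool.Agent.Helper38.RS (pz gs hf Gf absN)

/-- **L_LA** (linear algebra). Let `A` be a finitely generated abelian group with an endomorphism `γ`,
`1 + γ + ... + γ^(p-1) = 0`; `f j : A → ℚ_p` finitely many homomorphisms. Let `z ∈ k ⊗ A`, `z ≠ 0`,
satisfy `f j (γ^l z) = 0`. Then there is a sequence `u N` in `A`, constant modulo `(γ-1)A`, with
`u 0 ∉ (γ-1)A + torsion` and `‖f j (γ^l (u N))‖ ≤ p^(-N)`.

PROOF (simpler than `RP.S_LA`, same notation). In `ℤ[X]`, `p - (1 + X + ... + X^(p-1))` is divisible by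
`X - 1`, so `p A ⊆ (γ-1) A`; the same holds for every module on which `1 + γ + ... + γ^(p-1) = 0`.
`A' = A/torsion` is free of rank `r`; choose a basis and a homomorphism `s : A' → A` which is a section
of the projection. `k ⊗ A = k ⊗ A' = k^r` (the torsion dies because `k` has characteristic zero); `γ`
acts on `A'` by an integer matrix `Γ` and each `f j` factors through a row vector `φ_j ∈ ℚ_p^r`
(`ℚ_p` is torsion free). Let `W = {w ∈ ℚ_p^r : φ_j Γ^l w = 0 for all j, l}`. The linear system has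
coefficients in `ℚ_p` and the nonzero solution `z` over `k`, so `W ≠ 0`; `Γ W ⊆ W`. Let
`W₀ = W ∩ ℤ_p^r ≠ 0`. CLAIM: there is `w ∈ W₀` with `w ∉ (Γ-1) ℤ_p^r`. `Γ - 1` is injective on `ℚ_p^r`
(if `Γ v = v` then `0 = (1 + Γ + ...) v = p v`), so bijective on `ℚ_p^r` and on `W`. If the claim fails
every `w ∈ W₀` is `(Γ-1) v` with `v ∈ ℤ_p^r`, `v ∈ W`, so `W₀ = (Γ-1)^n W₀` for all `n`; but
`(Γ-1)^(p-1) ∈ p ℤ[Γ]` (`(X-1)^(p-1) ≡ 1 + X + ... + X^(p-1) mod p`), so `W₀ ⊆ p^n ℤ_p^r` for all `n`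
and `W₀ = 0`, a contradiction.
Let `p^c ≥ ‖φ_j Γ^l‖` for all `j`, `l < p` (`Γ^p = 1`). For `N ∈ ℕ` choose `t_N ∈ ℤ^r` with
`t_N ≡ w mod p^(N+c+1)` and put `u N = s(t_N)`. Then `f j (γ^l (u N)) = φ_j Γ^l t_N = φ_j Γ^l (t_N - w)`
has norm `≤ p^c p^(-N-c-1) ≤ p^(-N)`. `t_N ≡ t_0 mod p`, so `u N - u 0 = s(t_N - t_0) ∈ p A ⊆ (γ-1)A`.
If `u 0 = γ b - b + t` with `t` torsion, then in `ℤ_p^r`: `t_0 ∈ (Γ-1) ℤ_p^r` and
`w ∈ (Γ-1) ℤ_p^r + p ℤ_p^r = (Γ-1) ℤ_p^r`, a contradiction. -/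
def L_LA : Prop :=
  ∀ (p : ℕ) [Fact p.Prime] (k : Type) [NormedField k] [NormedAlgebra ℚ_[p] k]
    (A : Type) [AddCommGroup A] [Module.Finite ℤ A] (γ : A →+ A),
    (∀ x, ∑ j ∈ Finset.range p, γ^[j] x = 0) →
  ∀ (ι : Type) [Finite ι] (f : ι → A →+ ℚ_[p]) (z : k ⊗[ℤ] A), z ≠ 0 →
    (∀ j l, extHom (((algebraMap ℚ_[p] k : ℚ_[p] →+* k) : ℚ_[p] →+ k).comp (f j))
      ((extEnd γ : (k ⊗[ℤ] A) →ₗ[k] (k ⊗[ℤ] A))^[l] z) = 0) →
  ∃ u : ℕ → A, (∀ N, ∃ b, u N = u 0 + (γ b - b)) ∧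
    (¬ ∃ (b t : A) (n : ℕ), 0 < n ∧ n • t = 0 ∧ u 0 = (γ b - b) + t) ∧
    ∀ N j l, ‖f j (γ^[l] (u N))‖ ≤ (1 / p : ℝ) ^ N

/-- **L_HIL** (from units to Selmer elements). Let `u N ∈ 𝓞_Hˣ` be a sequence of units of norm
`∏_j γ^j(u N) = 1`, constant modulo the `γ(b)/b` with `b` a unit of norm 1, with
`‖L(τ(γ^l(u N)))‖ ≤ p^(-N)` for all the embeddings `τ` of `H` above `T` and all `l`. Let `y ∈ Hˣ` with
`γ(y) = (u 0) y` and `x ∈ Kˣ` the norm of `y`. Then `x` satisfies the local conditions of `a` at all the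
primes of `K₁`, and `LocSig`.

PROOF. This is part of the proof of `RP.S_HIL` with `M = K`, `M₁ = K₁`, `δ = 1`, `m = 1` (there the `y` given
by Hilbert 90 is arbitrary), which I repeat.
*loc.* Let `W` be a prime of `K₁`, `y₁ ∈ H₁` the image of `y`; `γ₁(y₁) = u₁ y₁` with `u₁` the image of
the unit `u 0`, and `∏_j γ₁^j(y₁)` is the image of `x` (`compat`, `ext`). Apply `RP.S_RAM` (if
`p ∣ ord_W(a)`) and `RP.S_TAM` (if not) to `H₁/K₁`.
*sig.* Let `N ∈ ℕ`, `b` a unit of norm 1 with `u N = (u 0) γ(b)/b`, `y' = y b`: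
`γ(y') = (u N) y'` and the norm of `y'` is `x`. Let `y'₁ ∈ H₁` be the image of `y'`,
`y'₁ = ∑_{i<p} α_i s^i`, `α_i ∈ K₁`, and let `s_j ∈ 𝓞_{K₁}` be the sequence of `RP.S_ROO`. Let `τ` be an
embedding of `K₁` in `k` whose restriction to `K` is in `T`. The sequence `τ(s_j)` is Cauchy; its limit
`ℓ` satisfies `ℓ^p = τ(a)`; as `H₁ = K₁(s)`, for each `i` there is an embedding `τ_i` of `H₁` in `k`
extending `τ` with `τ_i(s) = τ(ε)^i ℓ`, and `τ_0 ∘ γ₁^i = τ_i`. The restriction of `τ_i` to `H` is above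
`T`, and `τ_{i+1}(y') = τ_i(γ₁ y') = τ_i(u N) τ_i(y')`. So `τ(x) = ∏_i τ_i(y') = τ_0(y')^p η`, where `η`
is a product of elements `τ_0(γ^l(u N))` of norm 1, and `‖L(η)‖ ≤ p^(-N)`. As
`τ(∑ α_i s_j^i) → τ_0(y') ≠ 0`, for `j` large `c_j = ∑ α_i s_j^i ≠ 0` and the quotient
`r_j = τ_0(y')/τ(c_j)` satisfies `‖r_j - 1‖ ≤ p^(-N-2)`. There are finitely many `τ`; choose one `j`
good for all and `c = c_j^{-1}`: `τ(x c^p) = r_j^p η` has norm 1 and logarithm of norm `≤ p^(-N)`. Let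
`g = [K₁ : K]`, `n g = 1 + p n'`; the norm `N₁ = N_{K₁/K}` gives `N₁(x c^p) = x^g N₁(c)^p`, and
`(x^g N₁(c)^p)^n = x (x^(n') N₁(c)^n)^p` satisfies `SigSmall N` for `T`. -/
def L_HIL : Prop :=
  ∀ (p : ℕ) [Fact p.Prime] (k : Type) [NormedField k] [NormedAlgebra ℚ_[p] k]
    [IsUltrametricDist k] [CompleteSpace k], Nonempty (AlgebraicClosure ℚ →+* k) →
  ∀ (L : IwasawaLog p k) (K H K₁ H₁ : Type) [Field K] [NumberField K] [Field H] [NumberField H]
    [Field K₁] [NumberField K₁] [Field H₁] [NumberField H₁] [Algebra K H] [Algebra K K₁]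
    [Algebra K₁ H₁] [Algebra H H₁] (γ : H ≃ₐ[K] H) (γ₁ : H₁ ≃ₐ[K₁] H₁) (ε : K₁) (a : 𝓞 K₁) (s : H₁),
    HD p K H K₁ H₁ γ γ₁ ε a s →
  ∀ (T : Set (K →+* k)) (u : ℕ → (𝓞 H)ˣ), (∀ N, ∏ j ∈ Finset.range p, (γ ^ j) (u N : H) = 1) →
    (∀ N, ∃ b : (𝓞 H)ˣ, ∏ j ∈ Finset.range p, (γ ^ j) (b : H) = 1 ∧
      (u N : H) * b = u 0 * γ (b : H)) →
    (∀ N l, ∀ τ ∈ (above T : Set (H →+* k)),
      ‖logUnits L τ ((unitsHom γ)^[l] (Additive.ofMul (u N)))‖ ≤ (1 / p : ℝ) ^ N) →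
  ∀ (y : Hˣ) (x : Kˣ), γ (y : H) = (u 0 : H) * y →
    algebraMap K H (x : K) = ∏ j ∈ Finset.range p, (γ ^ j) (y : H) →
  (∀ W : HeightOneSpectrum (𝓞 K₁), LocAt p W (a : K₁) (algebraMap K K₁ (x : K))) ∧ LocSig L T x

/-- **L_CYC.** `[K₁ : K]` divides `p - 1`; it is `1` iff `K` contains a primitive `p`-th root of unity;
`K₁` is totally complex if `p` is odd.

PROOF. `Gal(K₁/K) → (ZMod p)ˣ`, `σ ↦ n` with `σ ε = ε^n`, is an injective homomorphism by `gen`. If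
`[K₁ : K] = 1`, `ε` comes from `K`. If `K` contains a primitive `p`-th root of unity `ξ`, `ε` is a
power of the image of `ξ`, so it is fixed by all `σ`, and `Gal(K₁/K)` is trivial. A real embedding of
`K₁` would send `ε` to a real number `r` with `r^p = 1`, so `r = 1` if `p` is odd. -/
def L_CYC : Prop :=
  ∀ (p : ℕ) [Fact p.Prime] (K K₁ : Type) [Field K] [NumberField K] [Field K₁] [NumberField K₁]
    [Algebra K K₁] (ε : K₁), Cyc p K K₁ ε →
  (finrank K K₁ ∣ p - 1) ∧ (finrank K K₁).Coprime p ∧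
    (finrank K K₁ = 1 ↔ ∃ ξ : K, IsPrimitiveRoot ξ p) ∧ (p ≠ 2 → IsTotallyComplex K₁)

/-- **L_MAT.** If the state `(R, α, a)` is given and `x ∈ K` satisfies the local conditions of `a` at the
primes of `K₁`, it satisfies those of the datum at the primes of `K`.

PROOF (from `L_CYC`, `RD.E_TRF` with `M = K`, `M₁ = K₁`). Every prime `w` of `K` has trivial decomposition
group over `K`, and there are primes of `K₁` above `w`. If `w ∉ R`, let `W` be above `w`: `p ∣ ord_W(a)`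
by `Match.free`, so `p ∣ ord_W(x)`, and `p ∣ ord_w(x)` by `E_TRF`. If `w ∈ R`, let `W`, `j` be given by
`Match.ram`: `a* α^j z^p ≡ 1 mod W` for some `z`, with `a* = (-1)^(p-1) a`, `α = al w`; `Tame p W a x`
gives `i`, `y` with `x a*^i y^p ≡ 1`. So `x α^(-i j) (y z^(-i))^p ≡ 1`, that is
`LocPow p W (x α^((p-1) i j))`, and `LocPow p w (x α^((p-1) i j))` by `E_TRF`. -/
def L_MAT : Prop :=
  ∀ (p : ℕ) [Fact p.Prime] (K K₁ : Type) [Field K] [NumberField K] [Field K₁] [NumberField K₁]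
    [Algebra K K₁] (ε : K₁), Cyc p K K₁ ε →
  ∀ (R : Set (HeightOneSpectrum (𝓞 K))) (al : HeightOneSpectrum (𝓞 K) → K) (a : 𝓞 K₁),
    St p ε R al a → ∀ x : K, x ≠ 0 →
    (∀ W : HeightOneSpectrum (𝓞 K₁), LocAt p W (a : K₁) (algebraMap K K₁ x)) →
  ∀ w : HeightOneSpectrum (𝓞 K), LocD p R al w x

/-- **L_P1** (part I). If the state `(R, α, a)` is good, then a vector `z` of `k ⊗ 𝓞_Hˣ` with
`γ z = ε' z` for a primitive `p`-th root of unity `ε' ∈ k`, which is killed by the logarithms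
`L ∘ τ` for all the embeddings `τ` of `H` above `T`, is zero.

PROOF (from `L_LA`, `L_HIL`, `L_MAT`, `RP.S_RAT`). Suppose `z ≠ 0`. Let `U` be the subgroup of the
`u ∈ 𝓞_Hˣ` with `∏_j γ^j(u) = 1` (as an additive group); `γ` acts on it and
`1 + γ + ... + γ^(p-1) = 0`; it is finitely generated. The map `q : u ↦ γ(u)/u` goes from `𝓞_Hˣ` to `U`
(`γ^p = 1`) and commutes with `γ`; let `z' ∈ k ⊗ U` be the image of `z`. The image of `z'` in
`k ⊗ 𝓞_Hˣ` is `γ z - z = (ε' - 1) z ≠ 0`, so `z' ≠ 0`. Let `n, f` be given by `RP.S_RAT` for `H` and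
`T' = above T` (place closed, as `T` is). The restrictions of the `f j` to `U` kill `γ^l z'`: the image
of `γ^l z'` in `k ⊗ 𝓞_Hˣ` is a multiple of `z`, killed by the `L ∘ τ`, `τ ∈ T'`. `L_LA` gives a
sequence `u N` in `U`; by the second conclusion of `RP.S_RAT` there is a constant `c` with
`‖L(τ(γ^l(u N)))‖ ≤ p^c p^(-N)` for `τ ∈ T'` (`T'` is finite); replace the sequence by
`N ↦ u (N + c)` (all the `u N` are congruent modulo `(γ-1)U`, so `u c ∉ (γ-1)U + torsion`).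
Let `u = u 0` be the new first term. By Hilbert 90 (`groupCohomology.exists_div_of_norm_eq_one` or the
linear independence of characters) there is `y ∈ Hˣ` with `γ(y) = u y`; the norm `∏_j γ^j(y)` is fixed
by `γ`, so it is the image of some `x ∈ Kˣ`. By `L_HIL` and `L_MAT`, `Sel1 L T R al x`. As the state is
good, in `K₁`: `x = a*^j w^p`, `w ∈ Kˣ`, `a* = (-1)^(p-1) a = ∏_i γ₁^i(s)`.
*If `p ∣ j`*: `x` is a `p`-th power in `K₁`, and `[K₁ : K] = g` is prime to `p` (`HD.cop`), so `x^g` and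
`x` are `p`-th powers in `K`: `x = w'^p`. Let `t = y/w' ∈ H`: the norm of `t` is 1 and
`γ(t)/t = u`; `t` is a unit: `γ(t) = u t` gives `ord_𝔴(γ^i t) = ord_𝔴(t)` for all primes `𝔴` of `H`
and all `i`, and `0 = ord_𝔴(∏ γ^i t) = p ord_𝔴(t)`. So `u = γ(t)/t ∈ (γ-1)U`, a contradiction.
*If `p ∤ j`*: let `σ ∈ Gal(K₁/K)`; by `OmType`, `σ ε = ε^n`, `σ a = a^n c^p`. `x` and `w` are fixed by `σ`,
so `a*^j = σ(a*)^j = a*^(n j) c^(p j)` (`(-1)^((p-1)(n-1)) = 1`: `p = 2` implies `n` odd) and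
`a*^((n-1) j)` is a `p`-th power in `K₁`. If `n ≢ 1 mod p` then `a*` and `a` are `p`-th powers in `K₁`,
`a = d^p`, `s^p = d^p`, `s ∈ K₁` (`ε ∈ K₁`), and `γ₁ s = s ≠ ε s`, a contradiction. So `σ ε = ε` and
`σ = 1` by `Cyc.gen`. Hence `[K₁ : K] = 1`, `[H₁ : H] = 1` by degrees, and `H → H₁` is an isomorphism
compatible with `γ`, `γ₁`; `ε` and `s` come from `ε₀ ∈ K` and `s₀ ∈ H`. Let `t = y/(s₀^j w)`: its norm
is `x/(a*^j w^p) = 1`, `γ(t)/t = u ε₀^(-j)`, a unit, so `t` is a unit as before, and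
`u = γ(t)/t · ε₀^j` with `ε₀^j` torsion in `U` (norm `ε₀^(jp) = 1`), a contradiction. -/
def L_P1 : Prop :=
  ∀ (p : ℕ) [Fact p.Prime] (k : Type) [NormedField k] [NormedAlgebra ℚ_[p] k]
    [IsUltrametricDist k] [CompleteSpace k], Nonempty (AlgebraicClosure ℚ →+* k) →
  ∀ (L : IwasawaLog p k) (K H K₁ H₁ : Type) [Field K] [NumberField K] [Field H] [NumberField H]
    [Field K₁] [NumberField K₁] [Field H₁] [NumberField H₁] [Algebra K H] [Algebra K K₁]
    [Algebra K₁ H₁] [Algebra H H₁] (γ : H ≃ₐ[K] H) (γ₁ : H₁ ≃ₐ[K₁] H₁) (ε : K₁) (a : 𝓞 K₁) (s : H₁),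
    HD p K H K₁ H₁ γ γ₁ ε a s → Cyc p K K₁ ε →
  ∀ (T : Set (K →+* k)), PlaceClosed T →
  ∀ (R : Set (HeightOneSpectrum (𝓞 K))) (al : HeightOneSpectrum (𝓞 K) → K), St p ε R al a →
    Good L T R al a →
  ∀ (ε' : k), IsPrimitiveRoot ε' p → ∀ z : k ⊗[ℤ] Additive (𝓞 H)ˣ,
    extEnd (unitsHom γ) z = ε' • z →
    (∀ τ ∈ (above T : Set (H →+* k)), extHom (logUnits L τ) z = 0) → z = 0

/-- **L_SUN** (`S`-units modulo `p`-th powers). Let `S` be a finite set of primes of `K`. A set of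
`S`-units pairwise incongruent modulo `p`-th powers has at most `p^(|S| + urk p K)` elements.

PROOF. Let `A` be the group of `S`-units (`S.unit K`). The homomorphism `A → ℤ^S`,
`x ↦ (ord_w x)_{w ∈ S}` has kernel `𝓞_Kˣ` (as a subgroup of `Kˣ`), so `A` is finitely generated, of
rank `ρ ≤ |S| + rank 𝓞_Kˣ = |S| + Units.rank K` (Dirichlet). Its torsion subgroup is the group `μ` of
the roots of unity of `K`, a finite cyclic group. So `A ≅ ℤ^ρ × μ` and `A/A^p` has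
`p^ρ · |μ/μ^p|` elements; `|μ/μ^p|` is `p` if `p` divides `|μ|`, i.e. if `K` contains a primitive
`p`-th root of unity, and `1` otherwise. Two elements of `A` congruent modulo `A^p` are congruent modulo
`p`-th powers of `Kˣ`. -/
def L_SUN : Prop :=
  ∀ (p : ℕ) [Fact p.Prime] (K : Type) [Field K] [NumberField K]
    (S : Set (HeightOneSpectrum (𝓞 K))), S.Finite →
  ∀ F : Finset Kˣ, Inc p (fun x ↦ x ∈ S.unit K) F → F.card ≤ p ^ (S.ncard + urk p K)

/-- **L_LOG** (units at the places of `T`). There are `p^|T|` elements `x` of `Kˣ` which are units at all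
the places of `T`, such that no quotient of two distinct ones satisfies `LocSig`.

PROOF. This is `RP.S_SIG` with `M = K` and without `P` and `δ`; the proof simplifies: `T` is finite. Let
`V = k^T`, `X = {x ∈ Kˣ : ‖τ x‖ = 1 for all τ ∈ T}`, `ℓ : X → V`, `ℓ(x) = (L(τ x))_τ`, `Λ` the
`ℤ_p`-submodule of `V` spanned by `ℓ(X)`. The parts (1)-(4) of the proof of `RP.S_SIG` show: (1) `Λ` is
finitely generated over `ℤ_p`, hence free, and closed; (2) `Λ` spans `V` over `k`, so its rank `r` is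
`≥ |T|`; (3) for `x ∈ X`, `LocSig L T x ↔ ℓ(x) ∈ pΛ`; (4) every element of `Λ` is congruent modulo `pΛ`
to an element of `ℓ(X)`. `Λ/pΛ` has `p^r ≥ p^|T|` elements; choose `p^|T|` of them and preimages in
`X`. -/
def L_LOG : Prop :=
  ∀ (p : ℕ) [Fact p.Prime] (k : Type) [NormedField k] [NormedAlgebra ℚ_[p] k]
    [IsUltrametricDist k] [CompleteSpace k], Nonempty (AlgebraicClosure ℚ →+* k) →
  ∀ (L : IwasawaLog p k) (K : Type) [Field K] [NumberField K] (T : Set (K →+* k)),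
  ∃ F : Finset Kˣ, F.card = p ^ T.ncard ∧ (∀ x ∈ F, ∀ τ ∈ T, ‖τ (x : K)‖ = 1) ∧
    ∀ x ∈ F, ∀ y ∈ F, x ≠ y → ¬ LocSig L T (x / y)

/-- **L_LOB** (lower bound for the local conditions). For a local system `v` at `S` over `K` (`M = K`,
`δ = 1`) there are `p^(|S| + |T|)` elements of `Kˣ`, pairwise incongruent modulo the group of the
local conditions.

PROOF (from `L_LOG`, `RP.S_BIN`). Note `above T = T` for `M = K`. For `c : S → ZMod p` choose `y_c ∈ Kˣ` with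
`v y_c w = c w` for `w ∈ S` (`surj`). For `x` in the set `F₁` of `L_LOG` let `x'` be as in `approx`: `v x' w = 0` on
`S` and `‖τ(x'/x) - 1‖ ≤ p^(-3)`, so `x'/x` satisfies `LocSig` (`RP.S_BIN`). Take the elements `x' y_c`.
If the quotient of two of them, `x' y_c/(x₁' y_{c₁})`, satisfies the conditions then `v` of it
vanishes on `S`, so `c = c₁` (additivity of `v`) and one may take `y_c = y_{c₁}`; then `x'/x₁'`
satisfies `LocSig`, and so does `x/x₁` (`LocSig` is a subgroup, see `RP.S_SUB`), so `x = x₁`. -/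
def L_LOB : Prop :=
  ∀ (p : ℕ) [Fact p.Prime] (k : Type) [NormedField k] [NormedAlgebra ℚ_[p] k]
    [IsUltrametricDist k] [CompleteSpace k], Nonempty (AlgebraicClosure ℚ →+* k) →
  ∀ (L : IwasawaLog p k) (K : Type) [Field K] [NumberField K] (T : Set (K →+* k))
    (S : Set (HeightOneSpectrum (𝓞 K))) (𝔪₀ : Ideal (𝓞 K))
    (v : Kˣ → HeightOneSpectrum (𝓞 K) → ZMod p), LSys (1 : K ≃ₐ[K] K) T S 𝔪₀ v →
  ∃ F : Finset Kˣ, F.card = p ^ (S.ncard + T.ncard) ∧
    ∀ x ∈ F, ∀ y ∈ F, x ≠ y → ¬ LSat L T S v (x / y)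

/-- **L_LIN** (linear algebra). Let `U`, `G` be subgroups of the commutative group `E`, `E^p ⊆ G`. Suppose
that a set of elements of `U` pairwise incongruent modulo `E^p` has at most `p^u` elements, that there
are `p^g` elements of `E` pairwise incongruent modulo `G`, and `p^r` elements of `U ∩ G` pairwise
incongruent modulo `E^p`; let `n + u ≤ g + r`. Then there are `n` independent homomorphisms
`E → ZMod p` which are trivial on `U` and `G`.

PROOF. `V = E/E^p` is a vector space over `F_p`; let `U'`, `G'` be the images of `U` and `G` (so `E/G` is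
`V/G'` as `E^p ⊆ G`). `U'` has at most `p^u` elements, `dim U' ≤ u`; `V/G'` has at least `p^g`
elements, so it has a subspace of dimension `g` (or infinite dimension). `U' ∩ G'` has at least `p^r`
elements, so the image `I` of `U'` in `V/G'` has dimension `≤ u - r`. So the quotient `(V/G')/I` has
dimension `≥ g - (u - r) ≥ n`; choose `n` linearly independent linear forms on it. -/
def L_LIN : Prop :=
  ∀ (p : ℕ) [Fact p.Prime] (E : Type) [CommGroup E] (U G : Subgroup E) (u g r n : ℕ),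
    (∀ x : E, x ^ p ∈ G) →
    (∀ F : Finset E, (∀ x ∈ F, x ∈ U) → (∀ x ∈ F, ∀ y ∈ F, x ≠ y → ¬ ∃ z, x / y = z ^ p) →
      F.card ≤ p ^ u) →
    (∃ F : Finset E, F.card = p ^ g ∧ ∀ x ∈ F, ∀ y ∈ F, x ≠ y → x / y ∉ G) →
    (∃ F : Finset E, F.card = p ^ r ∧ (∀ x ∈ F, x ∈ U ∧ x ∈ G) ∧
      ∀ x ∈ F, ∀ y ∈ F, x ≠ y → ¬ ∃ z, x / y = z ^ p) →
    n + u ≤ g + r →
  ∃ lam : Fin n → (Additive E →+ ZMod p), (∀ i, ∀ x ∈ U, lam i (Additive.ofMul x) = 0) ∧
    (∀ i, ∀ x ∈ G, lam i (Additive.ofMul x) = 0) ∧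
    ∀ c : Fin n → ZMod p, c ≠ 0 → ∃ x : E, ∑ i, c i * lam i (Additive.ofMul x) ≠ 0

/-- **L_CHR** (from homomorphisms to ray class characters). Let `S` be a finite set of primes such that
every divisor is principal outside `S`, `𝔪₀` a nonzero ideal all of whose prime divisors are in `S`, and
`λ_i : Kˣ → ZMod p` (`i < n`) independent homomorphisms, trivial on the `S`-units and on the nonzero
`α ≡ 1 mod 𝔪₀`. There are an ideal `𝔪`, divisible exactly by the primes of `S`, and an independent family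
`ψ_i` of ray class characters modulo `𝔪` with `λ_i(x) = ∑_{w ∈ Z} ord_w(x) ψ_i(w)` whenever
`p ∣ ord_w(x)` for all `w ∉ S ∪ Z`.

PROOF. For a nonzero ideal `I` prime to `S` (not divisible by a prime of `S`) choose `x_I ∈ Kˣ` with
`ord_w(x_I) = ord_w(I)` for `w ∉ S`; `ψ_i(I) = λ_i(x_I)` does not depend on the choice because `λ_i` is
trivial on the `S`-units; put `ψ_i(I) = 0` for the other ideals. `ψ_i` is additive. Let
`𝔪 = 𝔪₀ ∏_{w ∈ S} w`; the primes dividing `𝔪` are those of `S`, so `I + 𝔪 = (1)` iff `I` is prime to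
`S`. If `α ≠ 0`, `α - 1 ∈ 𝔪`, then `ψ_i((α)) = λ_i(α) = 0`. Independence: let `c ≠ 0` and `x ∈ Kˣ` with
`∑ c_i λ_i(x) ≠ 0`; write the divisor of `x` outside `S` as the difference of those of `I₁`, `I₂`,
integral and prime to `S`; `x x_{I₂}/x_{I₁}` is an `S`-unit, so
`∑ c_i ψ_i(I₁) - ∑ c_i ψ_i(I₂) = ∑ c_i λ_i(x) ≠ 0` and one of the two is not zero.
Last claim: by principality there is `z ∈ Kˣ` with `p ord_w(z) = ord_w(x)` for `w ∉ S ∪ Z` and
`ord_w(z) = 0` for `w ∈ Z` (the support is finite); then `x z^(-p) ∏_{w ∈ Z} x_w^(-ord_w(x))` is an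
`S`-unit (`x_w` for the ideal `w`), so `λ_i(x) = ∑_{w ∈ Z} ord_w(x) ψ_i(w)`. -/
def L_CHR : Prop :=
  ∀ (p : ℕ) [Fact p.Prime] (K : Type) [Field K] [NumberField K]
    (S : Set (HeightOneSpectrum (𝓞 K))), S.Finite →
    (∀ n : HeightOneSpectrum (𝓞 K) →₀ ℤ, ∃ x : Kˣ, ∀ w ∉ S, ordv w (x : K) = n w) →
  ∀ 𝔪₀ : Ideal (𝓞 K), 𝔪₀ ≠ ⊥ → (∀ w : HeightOneSpectrum (𝓞 K), w.asIdeal ⊔ 𝔪₀ ≠ ⊤ → w ∈ S) →
  ∀ (n : ℕ) (lam : Fin n → (Additive Kˣ →+ ZMod p)),
    (∀ i, ∀ x ∈ S.unit K, lam i (Additive.ofMul x) = 0) →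
    (∀ i (α : 𝓞 K) (x : Kˣ), (x : K) = α → α - 1 ∈ 𝔪₀ → lam i (Additive.ofMul x) = 0) →
    (∀ c : Fin n → ZMod p, c ≠ 0 → ∃ x : Kˣ, ∑ i, c i * lam i (Additive.ofMul x) ≠ 0) →
  ∃ (𝔪 : Ideal (𝓞 K)) (ψ : Fin n → Ideal (𝓞 K) → ZMod p),
    (∀ w : HeightOneSpectrum (𝓞 K), w.asIdeal ⊔ 𝔪 = ⊤ ↔ w ∉ S) ∧ Fam p 𝔪 n ψ ∧ Ind p 𝔪 n ψ ∧
    ∀ (x : Kˣ) (Z : Finset (HeightOneSpectrum (𝓞 K))), (∀ w ∈ Z, w ∉ S) →
      (∀ w, w ∉ S → w ∉ Z → (p : ℤ) ∣ ordv w (x : K)) →
      ∀ i, lam i (Additive.ofMul x) = ∑ w ∈ Z, ((ordv w (x : K) : ℤ) : ZMod p) * ψ i w.asIdeal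

/-- **L_PSI** (duality by counting). Let `(R, α)` be a datum over `K` whose Selmer group contains `p^r`
elements pairwise incongruent modulo `p`-th powers, and `n + urk p K ≤ r + |T|`. There is a family of
`n` independent characters of the dual Selmer group, `PsiFam`.

PROOF (from `RS.S_SEX`, `RD.D_VAL`, `RP.S_BIN`, `L_SUN`, `L_LOB`, `L_LIN`, `L_CHR`). Let `Z` be the finite set of
the primes in `R` or above `p`; `RS.S_SEX` (`K = M`; `ConjP K w v` means `w = v`, as the only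
automorphism of `K` over `K` is the identity) gives `S ⊇ Z` finite such that every divisor is principal
outside `S`. `RD.D_VAL` (with `M = K`, `δ = 1`; `above T = T`) gives `𝔪₀` and a local system `v` at `S`
with `v x w = 0 ↔ LocD p R al w x` for `w ∈ S`. Let `G = {x : LSat L T S v x}`, a subgroup which
contains the `p`-th powers, and `U = S.unit K`. By `L_SUN` the hypothesis on `U` of `L_LIN` holds with
`u = |S| + urk p K`, by `L_LOB` the one on `G` with `g = |S| + |T|`. Let `F` be the set of `p^r`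
elements of the Selmer group. For `x ∈ F`, `p ∣ ord_w(x)` for `w ∉ S` (`w ∉ R`), so by principality there
is `z ∈ Kˣ` with `x z^(-p) ∈ U`, and `x z^(-p) ∈ G` as `x ∈ G`; these elements are pairwise incongruent
modulo `p`-th powers. Since `n + u ≤ g + r`, `L_LIN` gives `λ_1, ..., λ_n`, trivial on `U` and `G`.
They are trivial on the nonzero `α ≡ 1 mod 𝔪₁ = p³ 𝔪₀`: `v α w = 0` by `LSys.ray`, and
`‖τ α - 1‖ ≤ p^(-3)` gives `LocSig` by `RP.S_BIN`; the primes dividing `𝔪₁` are in `S` (`abp`, `supp`).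
Apply `L_CHR` with `𝔪₁`. *dual*: let `x`, `Z` be as in `PsiFam.dual`. For `w ∈ S`, `w ∉ Z`, so
`LocD p R al w x` and `v x w = 0`; with `LocSig` this is `x ∈ G`, so `λ_i(x) = 0`. For `w ∉ S ∪ Z`,
`w ∉ R` and `LocD` gives `p ∣ ord_w(x)`. So `∑_{w ∈ Z} ord_w(x) ψ_i(w) = λ_i(x) = 0`. -/
def L_PSI : Prop :=
  ∀ (p : ℕ) [Fact p.Prime] (k : Type) [NormedField k] [NormedAlgebra ℚ_[p] k]
    [IsUltrametricDist k] [CompleteSpace k], Nonempty (AlgebraicClosure ℚ →+* k) →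
  ∀ (L : IwasawaLog p k) (K : Type) [Field K] [NumberField K] (T : Set (K →+* k))
    (R : Set (HeightOneSpectrum (𝓞 K))) (al : HeightOneSpectrum (𝓞 K) → K), IsDat p R al →
  ∀ r n : ℕ, n + urk p K ≤ r + T.ncard →
    (∃ F : Finset Kˣ, F.card = p ^ r ∧ Inc p (Sel1 L T R al) F) →
  ∃ (S : Set (HeightOneSpectrum (𝓞 K))) (𝔪 : Ideal (𝓞 K)) (ψ : Fin n → Ideal (𝓞 K) → ZMod p),
    PsiFam L T R al S 𝔪 n ψ

/-- **L_SLG.** `Sel1` is a subgroup of `Kˣ` which contains the `p`-th powers; for a state with `K₁ = K`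
it contains `a* = (-1)^(p-1) a`.

PROOF. Subgroup: see `RD.D_SLG`. Let `(R, α, a)` be a state with `K₁ = K`: *loc* is `Match` (the only
prime `W` above `w` is `w`; `ord_w(a*) = ord_w(a)`; for `w ∈ R`, `LocPow p w (a* α^j)` for some `j`);
*sig*: `‖τ a - 1‖ ≤ p^(-3)` for all `τ` since `p³ ∣ a - 1` and `τ` sends integers to elements of norm
`≤ 1`; `RP.S_BIN` gives `LocSig L T a`; if `p = 2`, `a* = -a` and `L(-1) = 0` (`2 L(-1) = L(1) = 0`), so
`SigSmall N (a y²)` implies `SigSmall N (-a y²)`. -/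
def L_SLG : Prop :=
  ∀ (p : ℕ) [Fact p.Prime] (k : Type) [NormedField k] [NormedAlgebra ℚ_[p] k]
    [IsUltrametricDist k] (L : IwasawaLog p k) (K : Type) [Field K] [NumberField K]
    (T : Set (K →+* k)) (R : Set (HeightOneSpectrum (𝓞 K))) (al : HeightOneSpectrum (𝓞 K) → K),
    IsDat p R al →
  (∃ G : Subgroup Kˣ, (∀ x, x ∈ G ↔ Sel1 L T R al x) ∧ ∀ x, Pw p x → x ∈ G) ∧
    ∀ (ε : K) (a : 𝓞 K) (as : Kˣ), St (K₁ := K) p ε R al a → (as : K) = (-1) ^ (p - 1) * (a : K) →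
      Sel1 L T R al as

/-- **L_FIN.** There is a bound for the number of elements of `Sel1` pairwise incongruent modulo `p`-th
powers.

PROOF (from `RD.D_FIN`). Let `n` be the bound of `D_FIN`; `R` is finite. The elements of `Sel1` have
valuations divisible by `p` outside `R`. In a finite set `F` as in `Inc`, the elements with given
valuations modulo `p` at the primes of `R` are at most `n`: divide them by one of them. So
`|F| ≤ n p^|R|`. -/
def L_FIN : Prop :=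
  ∀ (p : ℕ) [Fact p.Prime] (k : Type) [NormedField k] [NormedAlgebra ℚ_[p] k]
    (L : IwasawaLog p k) (K : Type) [Field K] [NumberField K] (T : Set (K →+* k))
    (R : Set (HeightOneSpectrum (𝓞 K))) (al : HeightOneSpectrum (𝓞 K) → K), IsDat p R al →
  ∃ n : ℕ, ∀ F : Finset Kˣ, Inc p (Sel1 L T R al) F → F.card ≤ n

end Pool.Agent.Helper11.LE
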