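import Pool.Agent.Helper11.LE.Goals1

/-!
# Project LE, part III: choice of primes without class field theory
-/

namespace Pool.Agent.Helper11.LE

open NumberField Polynomial Module IsDedekindDomain TensorProduct Pool.Agent.Helper51.SigLeo
open Pool.Agent.Helper51.RP Pool.Agent.Helper42.RD Pool.Agent.Helper38.RSP
open Pool.Agent.Helper38.RS (pz gs hf Gf absN)

/-- **L_CHB** (upper bound for one character). For a nontrivial additive ray class character `ψ` of a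
totally complex field, `∑_{v ∤ 𝔪} cos(2 π ψ(v)/p) N(v)^(-s) ≤ C` for `1 < s ≤ 2`.

PROOF (from `RSP.SP_LBD`, `RSP.SP_EUL`). See `RSP.SP_HLF`: `χ(I) = exp(2 π i ψ(I)/p)` for nonzero `I` prime
to `𝔪` (`ψ(I)` lifted to `{0, ..., p-1}`), `0` otherwise, satisfies `IsCh 𝔪 χ` and `χ(⊤) = 1`;
`∑_v Re χ(v) N(v)^(-s) ≤ log ‖L(s, χ)‖ + C ≤ C'`. -/
def L_CHB : Prop :=
  ∀ (p : ℕ) [Fact p.Prime] (F : Type) [Field F] [NumberField F] [IsTotallyComplex F]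
    (𝔪 : Ideal (𝓞 F)) (ψ : Ideal (𝓞 F) → ZMod p), IsPsi p 𝔪 ψ →
  ∃ C : ℝ, ∀ s : ℝ, 1 < s → s ≤ 2 →
    ∑' v : {v : HeightOneSpectrum (𝓞 F) // v.asIdeal ⊔ 𝔪 = ⊤},
      Real.cos (2 * Real.pi * ((ψ v.1.asIdeal).val : ℝ) / p) *
        (Ideal.absNorm v.1.asIdeal : ℝ) ^ (-s) ≤ C

/-- **L_ANN** (primes killed by a space of characters). Let `η` be an independent family of `n`
characters of a totally complex field and `C₀` a subgroup of `(ZMod p)^n`. The primes `v` prime to `𝔪`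
with `∑ c_i η_i(v) = 0` for all `c ∈ C₀` satisfy `∑ N(v)^(-s) ≤ |C₀|^(-1) log(1/(s-1)) + C`.

PROOF (from `L_CHB`, `RS.S_PSM`). For `c ∈ C₀`, `c ≠ 0`, `ψ_c = ∑ c_i η_i` satisfies `IsPsi` (`Ind`). For a prime
`v` prime to `𝔪`, `c ↦ ψ_c(v)` is a homomorphism `C₀ → ZMod p`, so
`∑_{c ∈ C₀} exp(2 π i ψ_c(v)/p)` is `|C₀|` if `v` is in the set and `0` otherwise. Take real parts,
multiply by `N(v)^(-s)` and sum over `v` (all series converge absolutely for `s > 1`): `|C₀|` times the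
sum over the set is at most the sum over all `v` (`c = 0`), which is `≤ log(1/(s-1)) + C` by `RS.S_PSM`,
plus `∑_{c ≠ 0} C_c` by `L_CHB`. -/
def L_ANN : Prop :=
  ∀ (p : ℕ) [Fact p.Prime] (F : Type) [Field F] [NumberField F] [IsTotallyComplex F]
    (𝔪 : Ideal (𝓞 F)) (n : ℕ) (η : Fin n → Ideal (𝓞 F) → ZMod p), Fam p 𝔪 n η → Ind p 𝔪 n η →
  ∀ C₀ : AddSubgroup (Fin n → ZMod p),
    Dens {v : HeightOneSpectrum (𝓞 F) | v.asIdeal ⊔ 𝔪 = ⊤ ∧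
      ∀ c ∈ C₀, ∑ i, c i * η i v.asIdeal = 0} (1 / (Nat.card C₀ : ℝ))

/-- **L_SUP** (the support lemma). Let `η` be a family of `n` characters (not necessarily
independent) of a totally complex field, `G ⊆ (ZMod p)^n` the group of the values `(η_i(I))_i`, `I`
prime to `𝔪`. If `g, g' ∈ G` and the sets of primes with `η = ± g` and with `η = ± g'` are thin, then so
is the set of the primes with `η = ± (g + g')`.

PROOF (from `L_CHB`, `RS.S_PSM`). Let `G^⊥ = {c ∈ (ZMod p)^n : ∑ c_i g_i = 0 for all g ∈ G}`, and for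
`c ∈ (ZMod p)^n` let `A_c(s) = ∑_{v ∤ 𝔪} cos(2 π (c · η(v))/p) N(v)^(-s)`, `ℓ = log(1/(s-1))`. If
`c ∈ G^⊥`, `A_c = ℓ + O(1)` (`RS.S_PSM`; finitely many primes divide `𝔪`). If `c ∉ G^⊥`,
`ψ_c = ∑ c_i η_i` satisfies `IsPsi p 𝔪`, so `A_c ≤ C` with one constant `C` for all `c`; put
`a_c = C - A_c ≥ 0`. For `h ∈ G` let `Z_h(s)` be the sum of `N(v)^(-s)` over the `v ∤ 𝔪` with
`η(v) = h`. Orthogonality (`∑_c cos(2 π c·(η(v) - h)/p) = p^n` if `η(v) = h`, else `0`) gives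
`p^n (Z_h + Z_{-h}) = 2 ∑_c cos(2 π (c·h)/p) A_c = 2 |G^⊥| ℓ - 2 ∑_{c ∉ G^⊥} a_c cos(2 π (c·h)/p) + O(1)`.
For `h = 0`: `∑_{c ∉ G^⊥} a_c ≤ |G^⊥| ℓ + O(1)`, as `Z_0 ≥ 0`. For `h = g` with `Z_g + Z_{-g} = O(1)`:
`∑ a_c cos(2 π (c·g)/p) = |G^⊥| ℓ + O(1)`, so `∑ a_c (1 - cos(2 π (c·g)/p)) ≤ O(1)`, all the terms are
`≥ 0`, and `a_c = O(1)` for the `c` with `c·g ≠ 0`; moreover `∑_{c ∉ G^⊥} a_c ≥ |G^⊥| ℓ - O(1)`. The same
for `g'`. If `c·(g + g') ≠ 0` then `c·g ≠ 0` or `c·g' ≠ 0`, so `a_c = O(1)`. So for `h = g + g'`: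
`∑ a_c cos(2 π (c·h)/p) = ∑_{c·h = 0} a_c + O(1) = ∑_{c ∉ G^⊥} a_c + O(1) ≥ |G^⊥| ℓ - O(1)` and
`Z_h + Z_{-h} = O(1)`. -/
def L_SUP : Prop :=
  ∀ (p : ℕ) [Fact p.Prime] (F : Type) [Field F] [NumberField F] [IsTotallyComplex F]
    (𝔪 : Ideal (𝓞 F)) (n : ℕ) (η : Fin n → Ideal (𝓞 F) → ZMod p), Fam p 𝔪 n η →
  ∀ g g' : Fin n → ZMod p, (∃ I, I ≠ ⊥ ∧ I ⊔ 𝔪 = ⊤ ∧ ∀ i, η i I = g i) →
    (∃ I, I ≠ ⊥ ∧ I ⊔ 𝔪 = ⊤ ∧ ∀ i, η i I = g' i) →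
    Thin (Pr p 𝔪 n η g) → Thin (Pr p 𝔪 n η g') → Thin (Pr p 𝔪 n η (g + g'))

/-- **L_MOD** (change of the modulus). Let `η` be an independent family modulo `𝔪` and `𝔪' ≤ 𝔪` a nonzero
ideal. It is an independent family modulo `𝔪'`.

PROOF. Only the independence is not trivial (`I ⊔ 𝔪' = ⊤` implies `I ⊔ 𝔪 = ⊤`). Let `c ≠ 0`,
`ψ = ∑ c_i η_i`, `I` prime to `𝔪` with `ψ(I) ≠ 0`. By the Chinese remainder theorem there is `γ ∈ I` with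
`γ ≡ 1 mod 𝔪` and `γ ∉ I q` for the (finitely many) primes `q` dividing `𝔪'` but not `𝔪` (`I` and `𝔪`
are coprime; for each `q` choose `γ_q ∈ I ∖ I q`; the conditions are congruences modulo `𝔪` and modulo the
`I q`; `γ` exists in `I`: take `x ∈ I`, `x ≡ 1 mod 𝔪`, and add an element of `𝔪 I`, whose image in
`I/(I ∏ q)`, a module isomorphic to `∏ 𝓞/q`, can be prescribed, because `𝔪` is prime to the `q`).
`(γ) = I J`; `J` is prime to `𝔪` (as `γ ≡ 1 mod 𝔪`) and to the `q`, so `J` is prime to `𝔪'`; and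
`ψ(I) + ψ(J) = ψ((γ)) = 0`, so `ψ(J) ≠ 0`. -/
def L_MOD : Prop :=
  ∀ (p : ℕ) [Fact p.Prime] (F : Type) [Field F] [NumberField F] (𝔪 𝔪' : Ideal (𝓞 F)) (n : ℕ)
    (η : Fin n → Ideal (𝓞 F) → ZMod p), Fam p 𝔪 n η → Ind p 𝔪 n η → 𝔪' ≠ ⊥ → 𝔪' ≤ 𝔪 →
    Fam p 𝔪' n η ∧ Ind p 𝔪' n η

/-- **L_RCF** (the ray class group modulo `p` is finite). For a nonzero ideal `𝔫` there are finitely many
additive characters `η_i` modulo `𝔫` such that a divisor `∑ c(Q) Q` prime to `𝔫` on which all of them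
vanish is, modulo `p`, the divisor of some `b ∈ 𝓞_F`, `b ≡ 1 mod 𝔫`, at the primes which do not divide
`𝔫`.

PROOF. Let `V` be the `F_p`-vector space of the finitely supported functions from the set of primes not
dividing `𝔫` to `F_p`, `div(c) = (ord_Q(c))_Q ∈ V` for `c ∈ 𝓞_F`, `c ≠ 0`, and `V₀` the set of the `div(c)`,
`c ≠ 0`, `c ≡ 1 mod 𝔫`, a subspace (products of such `c` are such). CLAIM: `V/V₀` is finite. Every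
element of `V` is the divisor of an integral ideal prime to `𝔫`. For each ideal class choose an integral
ideal `J` prime to `𝔫` (`RS.S_REP` with `𝔪 = 𝔫`) such that `J I` is principal for the `I` in the
class. To an ideal `I` prime to `𝔫` associate its class `C` and the residue class modulo `𝔫` of a
generator `α` of `I J_C`, which is prime to `𝔫`: finitely many values. If `I`, `I'` have the same value
choose `γ ∈ 𝓞_F`, `γ ≠ 0`, with `α γ ≡ 1 mod 𝔫`; then `α' γ ≡ 1 mod 𝔫`, and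
`div(I) - div(I') = div(α γ) - div(α' γ) ∈ V₀`. Let `f_1, ..., f_n` be a basis of the dual space of
`V/V₀` and `η_i(I) = f_i(div I)` for nonzero `I` (only the primes not dividing `𝔫` are counted). `η_i`
vanishes on `(α)` if `α ≡ 1 mod 𝔫`. If `∑ c(Q) η_i(Q) = 0` for all `i`, the element `∑ c(Q) e_Q` of `V` is
in `V₀`, so it is `div(b)`. -/
def L_RCF : Prop :=
  ∀ (p : ℕ) [Fact p.Prime] (F : Type) [Field F] [NumberField F] (𝔫 : Ideal (𝓞 F)), 𝔫 ≠ ⊥ →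
  ∃ (n : ℕ) (η : Fin n → Ideal (𝓞 F) → ZMod p), Fam p 𝔫 n η ∧
    ∀ c : HeightOneSpectrum (𝓞 F) →₀ ℤ, (∀ Q, c Q ≠ 0 → Q.asIdeal ⊔ 𝔫 = ⊤) →
      (∀ i, ∑ Q ∈ c.support, (c Q : ZMod p) * η i Q.asIdeal = 0) →
      ∃ b : 𝓞 F, b ≠ 0 ∧ b - 1 ∈ 𝔫 ∧ ∀ Q : HeightOneSpectrum (𝓞 F), Q.asIdeal ⊔ 𝔫 = ⊤ →
        (p : ℤ) ∣ ordv Q (b : F) - c Q

/-- **L_OME** (the `ω`-projector). Let `K₁/K`, `ε` be as in `Cyc`, `𝔫` a nonzero ideal of `𝓞_{K₁}`. There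
are a nonzero ideal `𝔫' ⊆ 𝔫` stable under `Gal(K₁/K)` and a family of characters `η` modulo `𝔫'` such
that: (i) if `[K₁ : K] > 1`, then for every ideal `I` prime to `𝔫'` there are an ideal `J` prime to `𝔫'`
with `η(J) = η(I)` whose relative norm is the `p`-th power of that of an ideal prime to `𝔫'`, and an
ideal `J` prime to `𝔫'` with `η(J) = 0` and `N(J) = N(I) N(J₀)^p`, `J₀` prime to `𝔫'`; (ii) if primes
`Q_1, ..., Q_l` of `K₁`, prime to `𝔫'`, with trivial decomposition group over `K`, not conjugate to each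
other, and integers `s_i` prime to `p` satisfy `∑ s_i η_j(Q_i) = 0` for all `j`, then there is
`b ∈ 𝓞_{K₁}`, `b ≠ 0`, `b ≡ 1 mod 𝔫'`, of type `ω`, whose valuation is prime to `p` at all the conjugates
of the `Q_i` and a multiple of `p` at all other primes.

PROOF (from `L_RCF`, `L_CYC`). Let `Δ = Gal(K₁/K)`, `n(σ) ∈ ℕ` with `σ ε = ε^(n(σ))`, `n(1) = 1`;
`n(σ τ) ≡ n(σ) n(τ) mod p`; `g = |Δ|` divides `p - 1`. Let `𝔫' = ∏_{σ ∈ Δ} σ(𝔫)`. Let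
`η'_1, ..., η'_n` be given by `L_RCF` for `𝔫'`, and `η_j(I) = ∑_σ n(σ⁻¹) η'_j(σ(I))`: additive on the
ideals prime to `𝔫'` (`σ 𝔫' = 𝔫'`) and zero on `(α)`, `α ≡ 1 mod 𝔫'` (`σ α ≡ 1 mod 𝔫'`). One has
`η_j(ρ I) = n(ρ) η_j(I)` for `ρ ∈ Δ` (in `ZMod p`): `∑_σ n(σ⁻¹) η'_j(σ ρ I) = ∑_τ n(ρ τ⁻¹) η'_j(τ I)`.
(i) Let `E(I) = ∏_σ σ(I)^(n(σ⁻¹))`, `t g ≡ 1 mod p`. `η_j(E(I)) = ∑_σ n(σ⁻¹) n(σ) η_j(I) = g η_j(I)`;
`J = E(I)^t`: `N(J) = N(I)^(t ∑ n(σ⁻¹))` and `∑_σ n(σ⁻¹) ≡ 0 mod p` (the sum of the values of a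
nontrivial character `Δ → F_pˣ`; `Δ ≠ 1` and `n` is injective modulo `p` by `gen`), so `J₀ = I^k`. And
`J = (∏_σ σ(I))^t`: `η_j(J) = t ∑_σ n(σ) η_j(I) = 0`, `N(J) = N(I)^(t g) = N(I) N(I^k)^p` if
`t g = 1 + p k`.
(ii) For a divisor `D` put `E(D) = ∑_σ n(σ⁻¹) σ(D)`. `∑ s_i η_j(Q_i) = 0` means `η'_j(E(D)) = 0` with
`D = ∑ s_i Q_i`. `L_RCF` gives `β ≡ 1 mod 𝔫'` with `div(β) ≡ E(D) mod p` outside `𝔫'`. Let
`b = ∏_σ σ(β)^(n(σ⁻¹))`: `b ≡ 1 mod 𝔫'`; `b` is of type `ω` (see `RD.E_OMG`); at the primes dividing `𝔫'`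
the valuation is `0`; elsewhere `div(b) ≡ E(E(D))`, and
`E(E(D)) = ∑_{σ,τ} n(σ⁻¹) n(τ⁻¹) σ τ (D) = ∑_ρ (∑_σ n(σ⁻¹) n(ρ⁻¹ σ)) ρ(D) ≡ g ∑_ρ n(ρ⁻¹) ρ(D)`. The
primes `ρ(Q_i)` (`ρ ∈ Δ`) are distinct (trivial decomposition group, not conjugate), and the
coefficient of `ρ(Q_i)` is `g n(ρ⁻¹) s_i`, prime to `p`. -/
def L_OME : Prop :=
  ∀ (p : ℕ) [Fact p.Prime] (K K₁ : Type) [Field K] [NumberField K] [Field K₁] [NumberField K₁]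
    [Algebra K K₁] (ε : K₁), Cyc p K K₁ ε → ∀ 𝔫 : Ideal (𝓞 K₁), 𝔫 ≠ ⊥ →
  ∃ (𝔫' : Ideal (𝓞 K₁)) (n : ℕ) (η : Fin n → Ideal (𝓞 K₁) → ZMod p), 𝔫' ≤ 𝔫 ∧
    (∀ σ : K₁ ≃ₐ[K] K₁, 𝔫'.map (RingOfIntegers.mapRingHom (σ : K₁ →+* K₁)) = 𝔫') ∧
    Fam p 𝔫' n η ∧
    (1 < finrank K K₁ → ∀ (I : Ideal (𝓞 K₁)), I ≠ ⊥ → I ⊔ 𝔫' = ⊤ →
      (∃ J J₀ : Ideal (𝓞 K₁), J ≠ ⊥ ∧ J ⊔ 𝔫' = ⊤ ∧ J₀ ≠ ⊥ ∧ J₀ ⊔ 𝔫' = ⊤ ∧ (∀ i, η i J = η i I) ∧
        Ideal.relNorm (𝓞 K) J = Ideal.relNorm (𝓞 K) J₀ ^ p) ∧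
      ∃ J J₀ : Ideal (𝓞 K₁), J ≠ ⊥ ∧ J ⊔ 𝔫' = ⊤ ∧ J₀ ≠ ⊥ ∧ J₀ ⊔ 𝔫' = ⊤ ∧ (∀ i, η i J = 0) ∧
        Ideal.relNorm (𝓞 K) J = Ideal.relNorm (𝓞 K) I * Ideal.relNorm (𝓞 K) J₀ ^ p) ∧
    ∀ (l : ℕ) (Q : Fin l → HeightOneSpectrum (𝓞 K₁)) (s : Fin l → ℤ),
      (∀ i, (Q i).asIdeal ⊔ 𝔫' = ⊤ ∧ FreeP K (Q i) ∧ ¬ (p : ℤ) ∣ s i) →
      (∀ i j, i ≠ j → ¬ ConjP K (Q i) (Q j)) →
      (∀ j, ∑ i, (s i : ZMod p) * η j (Q i).asIdeal = 0) →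
      ∃ b : 𝓞 K₁, b ≠ 0 ∧ b - 1 ∈ 𝔫' ∧ OmType p K ε (b : K₁) ∧
        ∀ W : HeightOneSpectrum (𝓞 K₁),
          ((∃ i, ConjP K W (Q i)) → ¬ (p : ℤ) ∣ ordv W (b : K₁)) ∧
          ((∀ i, ¬ ConjP K W (Q i)) → (p : ℤ) ∣ ordv W (b : K₁))

/-- **L_FRE** (primes of degree 1). Let `K₁/K` be Galois. There is a finite set `Z₁` of primes of `K₁`
such that every prime `Q ∉ Z₁` of `K₁` whose norm is a prime number has trivial decomposition group over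
`K`, and the prime `q` of `K` below it satisfies `relNorm Q = q`.

PROOF. For `g ∈ Gal(K₁/K)`, `g ≠ 1`, choose `θ_g ∈ 𝓞_{K₁}` with `g θ_g ≠ θ_g`; `Z₁` is the set of the
primes dividing one of the `g θ_g - θ_g`. If `g ≠ 1` preserves the valuation of `Q`, it acts on
`𝓞_{K₁}/Q`, a field with a prime number of elements, trivially, so `g θ_g - θ_g ∈ Q`. The norm of `Q` is
a power of that of `q`, with exponent the residue degree, so the residue degree is 1, and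
`relNorm Q = q^f = q`. -/
def L_FRE : Prop :=
  ∀ (K K₁ : Type) [Field K] [NumberField K] [Field K₁] [NumberField K₁] [Algebra K K₁]
    [IsGalois K K₁], ∃ Z₁ : Set (HeightOneSpectrum (𝓞 K₁)), Z₁.Finite ∧
    ∀ Q : HeightOneSpectrum (𝓞 K₁), Q ∉ Z₁ → (Ideal.absNorm Q.asIdeal).Prime →
      FreeP K Q ∧ ∀ q : HeightOneSpectrum (𝓞 K), Above Q q →
        Ideal.relNorm (𝓞 K) Q.asIdeal = q.asIdeal

/-- **L_PIK** (choice of a prime). Let `F` be a number field, `A₁`, `A₂` sets of primes of upper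
densities `c₁`, `c₂` (`Dens`), `c₁ + c₂ < 1`, `B` a thin set and `Z` a finite set. There is a prime
`v ∉ A₁ ∪ A₂ ∪ B ∪ Z` whose norm is a prime number. A set which is not thin contains a prime `v ∉ Z`
whose norm is a prime number.

PROOF (from `RS.S_PSM`, `RS.S_DG1`). The sum over all primes is `≥ log(1/(s-1)) - C`; that over
`A₁ ∪ A₂ ∪ B ∪ Z` and the primes whose norm is not prime is `≤ (c₁ + c₂) log(1/(s-1)) + C'`; let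
`s → 1+`. Second statement: the sum over a subset of the union of a finite set and of the primes whose
norm is not prime is bounded. -/
def L_PIK : Prop :=
  ∀ (F : Type) [Field F] [NumberField F],
  (∀ (A₁ A₂ B Z : Set (HeightOneSpectrum (𝓞 F))) (c₁ c₂ : ℝ), Dens A₁ c₁ → Dens A₂ c₂ →
    c₁ + c₂ < 1 → Thin B → Z.Finite →
    ∃ v : HeightOneSpectrum (𝓞 F), v ∉ A₁ ∧ v ∉ A₂ ∧ v ∉ B ∧ v ∉ Z ∧
      (Ideal.absNorm v.asIdeal).Prime) ∧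
  ∀ (B Z : Set (HeightOneSpectrum (𝓞 F))), ¬ Thin B → Z.Finite →
    ∃ v ∈ B, v ∉ Z ∧ (Ideal.absNorm v.asIdeal).Prime

/-- **L_CH2** (choice of `b`, two primes, `[K₁ : K] > 1`). Let `p` be odd, `x₀ ∈ Kˣ` not a `p`-th power,
`ψ_1, ψ_2` independent characters of `K` modulo `𝔪`, `𝔫` a nonzero ideal of `𝓞_{K₁}`, `Z` a finite set
of primes of `K`. There are `b ∈ 𝓞_{K₁}`, `b ≡ 1 mod 𝔫`, of type `ω`, and a finite set `Z'` of primes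
of `K`, not in `Z`, prime to `𝔪`, such that the valuation of `b` is prime to `p` exactly at the primes
above `Z'`, which have trivial decomposition groups over `K`, the characters are independent on `Z'`, and
`x₀` is not locally a `p`-th power at some prime of `Z'`.

PROOF (from `L_CYC`, `L_OME`, `L_MOD`, `L_ANN`, `L_SUP`, `L_FRE`, `L_PIK`, `RSP.SP_KUM`). `K₁` is totally
complex. `L_OME` for the ideal `𝔫 · 𝔪 𝓞_{K₁}` gives `𝔫'` and `η` (`n` characters). Let `ψ'_i(I) = ψ_i(N(I))`,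
`N = relNorm`, `i = 1, 2`, and let `Φ = (η, ψ')`, a family of `n + 2` characters modulo `𝔫'`: if `I` is
prime to `𝔫'` then `N(I)` is prime to `𝔪`; if `α ≡ 1 mod 𝔫'` then `N(α) = ∏_σ σ(α) ≡ 1 mod 𝔪 𝓞_{K₁}`, so
`N(α) ≡ 1 mod 𝔪`. Let `G ⊆ (ZMod p)^(n+2)` be the group of the values of `Φ`. (1) For all `w ∈ F_p²`,
`(0, w) ∈ G`: by `L_MOD` for `𝔪' = 𝔪 ∩ 𝔫'` (contraction) the `ψ_i` are independent on ideals of `K`
prime to `𝔫'`, so their values there are all of `F_p²`; `ψ'_i(I 𝓞_{K₁}) = [K₁ : K] ψ_i(I)`, and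
`[K₁ : K]` is prime to `p`; so the `ψ'` are onto `F_p²`, and (i) of `L_OME` gives `(0, w) ∈ G`. (2) If
`(κ, w) ∈ G` then `(κ, 0) ∈ G` by (i) of `L_OME`, so `(κ, w') ∈ G` for all `w'`. In particular the family
`ψ'` is independent.
*Q₁.* Let `A₁` be the set of the primes `Q ∤ p` of `K₁` with `LocPow p Q x₀`; `x₀` is not a `p`-th power in
`K₁` (`[K₁ : K]` is prime to `p`; take the norm), so by `RSP.SP_KUM` it has `Dens 1/p`. `A₂`: the primes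
prime to `𝔫'` with `ψ'_1(Q) = ψ'_2(Q) = 0`, `Dens 1/p²` by `L_ANN` (`C₀ = ⊤`). `B`: the union of the
finitely many thin sets among the `Pr Φ g`. `Z''`: the finite set of the primes which divide `𝔫'` or
`p`, or are above a prime in `Z`, or in the set `Z₁` of `L_FRE`. `1/p + 1/p² < 1`, so `L_PIK` gives a
prime `Q₁` outside, of prime norm. Let `Φ(Q₁) = (κ, w₁)`, `w₁ ≠ 0`; `Pr Φ (κ, w₁)` contains `Q₁`, so it
is not thin.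
*Q₂.* CLAIM: there is `w₂ ∈ F_p²`, not in `F_p w₁`, such that `Pr Φ (κ, w₂)` is not thin. Otherwise let
`w ∉ F_p w₁`; then `2w - w₁ ∉ F_p w₁` (`p` is odd), so `(κ, w)` and `(κ, 2w - w₁)` are in `G` and thin;
thinness is invariant under `g ↦ -g`, so by `L_SUP` also `2 (κ, w) - (κ, 2w - w₁) = (κ, w₁)` is thin, a
contradiction. By `L_PIK` choose `Q₂` in this set, of prime norm, not in `Z''`, not above the prime
`q₁` of `K` below `Q₁`. `Φ(Q₂) = e (κ, w₂)` with `e = ± 1`.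
*b.* `η(Q₁) - e η(Q₂) = κ - e² κ = 0`, so (ii) of `L_OME` with `s = (1, -e)` gives `b`. Let `Z' = {q₁, q₂}` be the
primes of `K` below `Q₁`, `Q₂`. The primes of `K₁` above `q_i` are the conjugates of `Q_i`. By
`L_FRE`, `ψ_i(q₁) = ψ_i(N Q₁) = w_{1,i}` and `ψ_i(q₂) = e w_{2,i}`, and `w₁`, `w₂` are independent. If
`LocPow p q₁ x₀` then `LocPow p Q₁ x₀`, which is false. `q_i` is prime to `𝔪` as `Q_i` is prime to
`𝔫'`. -/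
def L_CH2 : Prop :=
  ∀ (p : ℕ) [Fact p.Prime], p ≠ 2 → ∀ (K K₁ : Type) [Field K] [NumberField K] [Field K₁]
    [NumberField K₁] [Algebra K K₁] (ε : K₁), Cyc p K K₁ ε → 1 < finrank K K₁ →
  ∀ x₀ : Kˣ, ¬ Pw p x₀ → ∀ (𝔪 : Ideal (𝓞 K)) (ψ : Fin 2 → Ideal (𝓞 K) → ZMod p), Fam p 𝔪 2 ψ →
    Ind p 𝔪 2 ψ → ∀ 𝔫 : Ideal (𝓞 K₁), 𝔫 ≠ ⊥ → ∀ Z : Set (HeightOneSpectrum (𝓞 K)), Z.Finite →
  ∃ (b : 𝓞 K₁) (Z' : Finset (HeightOneSpectrum (𝓞 K))), b ≠ 0 ∧ b - 1 ∈ 𝔫 ∧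
    OmType p K ε (b : K₁) ∧ (∀ w ∈ Z', w ∉ Z ∧ w.asIdeal ⊔ 𝔪 = ⊤) ∧
    (∀ (W : HeightOneSpectrum (𝓞 K₁)) (w : HeightOneSpectrum (𝓞 K)), Above W w →
      (w ∈ Z' → FreeP K W ∧ ¬ (p : ℤ) ∣ ordv W (b : K₁)) ∧
      (w ∉ Z' → (p : ℤ) ∣ ordv W (b : K₁))) ∧
    (∀ o : HeightOneSpectrum (𝓞 K) → ZMod p, (∀ i, ∑ w ∈ Z', o w * ψ i w.asIdeal = 0) →
      ∀ w ∈ Z', o w = 0) ∧
    ∃ w ∈ Z', ¬ LocPow p w (x₀ : K)

/-- **L_CH1** (choice of `b`, three primes, `K` contains the `p`-th roots of unity). Let `p` be odd,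
`x₀, x₁ ∈ Kˣ` independent modulo `p`-th powers, `ψ_1, ψ_2` independent characters of `K` modulo `𝔪`, `𝔫` a
nonzero ideal of `𝓞_K`, `Z` a finite set of primes. There are `b ∈ 𝓞_K`, `b ≡ 1 mod 𝔫`, and a finite set
`Z'` of primes, not in `Z`, prime to `𝔪`, such that the valuation of `b` is prime to `p` exactly at the
primes of `Z'`; the only relations between the characters on `Z'` are the multiples of the valuation of
`b`; and `x₀`, `x₁` are independent modulo the local `p`-th powers at the primes of `Z'`.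

PROOF (from `L_CYC` with `K₁ = K`, `L_RCF`, `L_MOD`, `L_ANN`, `L_SUP`, `L_PIK`, `RSP.SP_KUM`). `K` is totally
complex (`p` odd). Let `𝔫₁ = 𝔫 𝔪`, `η` given by `L_RCF` for `𝔫₁`, `Φ = (η, ψ)` a family modulo `𝔫₁`, `ψ` is
independent modulo `𝔫₁` (`L_MOD`). Let `Z''` be the finite set of the primes in `Z`, dividing `p 𝔫₁`, or
at which `x₀` or `x₁` has a nonzero valuation, `B` the union of the thin sets among the `Pr Φ g`. For a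
prime `Q ∤ p`, `N(Q) ≡ 1 mod p` (`ε` has order `p` modulo `Q`), and for elements of valuation 0 at `Q`:
`LocPow p Q` means that the residue is a `p`-th power in `κˣ`, `κˣ/p`-th powers is cyclic of order `p`.
*Q₁*: as in `L_CH2` (`Dens 1/p` for `LocPow p Q x₀`, `Dens 1/p²` for `ψ = 0`), there is `Q₁ ∉ Z''` with
`x₀` not locally a `p`-th power, `w₁ = ψ(Q₁) ≠ 0`, `g₁ = Φ(Q₁)` not thin. The set of the
`(i, j) ∈ F_p²` with `LocPow p Q₁ (x₀^i x₁^j)` is a subgroup of order `≥ p` (pigeonhole) and not everything: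
it is a line generated by `(i₁, j₁) ≠ 0`. Let `y = x₀^(i₁) x₁^(j₁)`, not a `p`-th power.
*Q₂*: outside `Z'' ∪ {Q₁}` and `B`, with `y` not locally a `p`-th power (`Dens 1/p` by `RSP.SP_KUM`) and
`w₂ = ψ(Q₂) ∉ F_p w₁` (the primes with `ψ(Q) ∈ F_p w₁` have `Dens 1/p` by `L_ANN` with
`C₀ = {c : c · w₁ = 0}`, of order `p`); `2/p < 1`. `g₂ = Φ(Q₂)`.
*Q₃*: for some `e ∈ {1, -1}`, `g₁ + e g₂` is not thin: otherwise by `L_SUP`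
`(g₁ + g₂) + (g₁ - g₂) = 2 g₁` is thin, and its multiple `g₁` (`p` odd), a contradiction. By `L_PIK` choose
`Q₃ ∉ Z'' ∪ {Q₁, Q₂}` in `Pr Φ (g₁ + e g₂)`: `Φ(Q₃) = -s (g₁ + e g₂)` with `s = ± 1`. The divisor
`Q₁ + e Q₂ + s Q₃` is killed by the `η`, as `g₁ + e g₂ - s² (g₁ + e g₂) = 0`; `L_RCF` gives
`b ≡ 1 mod 𝔫₁` with `ord ≡ 1, e, s` at `Q₁, Q₂, Q₃`, and `≡ 0` at the other primes (at the divisors of
`𝔫₁` it is `0`). `Z' = {Q₁, Q₂, Q₃}`.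
*Relations*: `o₁ w₁ + o₂ w₂ + o₃ w₃ = 0`, `w₃ = -s (w₁ + e w₂)`, gives `o₁ = s o₃`, `o₂ = s e o₃`, so
`o = s o₃ (1, e, s)`. *Independence*: if `LocPow p Q (x₀^i x₁^j)` for `Q = Q₁, Q₂` then
`(i, j) ≡ t (i₁, j₁)`, and `y^t` is a local `p`-th power at `Q₂`, so `p ∣ t`. -/
def L_CH1 : Prop :=
  ∀ (p : ℕ) [Fact p.Prime], p ≠ 2 → ∀ (K : Type) [Field K] [NumberField K] (ε : K),
    IsPrimitiveRoot ε p →
  ∀ x₀ x₁ : Kˣ, (∀ i j : ℕ, Pw p (x₀ ^ i * x₁ ^ j) → p ∣ i ∧ p ∣ j) →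
  ∀ (𝔪 : Ideal (𝓞 K)) (ψ : Fin 2 → Ideal (𝓞 K) → ZMod p), Fam p 𝔪 2 ψ → Ind p 𝔪 2 ψ →
  ∀ 𝔫 : Ideal (𝓞 K), 𝔫 ≠ ⊥ → ∀ Z : Set (HeightOneSpectrum (𝓞 K)), Z.Finite →
  ∃ (b : 𝓞 K) (Z' : Finset (HeightOneSpectrum (𝓞 K))), b ≠ 0 ∧ b - 1 ∈ 𝔫 ∧
    (∀ w ∈ Z', w ∉ Z ∧ w.asIdeal ⊔ 𝔪 = ⊤) ∧
    (∀ w : HeightOneSpectrum (𝓞 K), w ∈ Z' ↔ ¬ (p : ℤ) ∣ ordv w (b : K)) ∧
    (∀ o : HeightOneSpectrum (𝓞 K) → ZMod p, (∀ i, ∑ w ∈ Z', o w * ψ i w.asIdeal = 0) →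
      ∃ t : ZMod p, ∀ w ∈ Z', o w = t * ((ordv w (b : K) : ℤ) : ZMod p)) ∧
    ∀ i j : ℕ, (∀ w ∈ Z', LocPow p w ((x₀ ^ i * x₁ ^ j : Kˣ) : K)) → p ∣ i ∧ p ∣ j

end Pool.Agent.Helper11.LE
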