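import Pool.Agent.Helper9.LE.LA
import Pool.Agent.Helper90.LE.CYC
import Pool.Agent.Helper86.LE.MAT
import Pool.Agent.Helper86.LE.FCNT
import Pool.Agent.Helper3.LE.P1
import Pool.Agent.Helper96.LE.LOB
import Pool.Agent.Helper16.LE.LOG
import Pool.Agent.Helper61.LE.LIN
import Pool.Agent.Helper61.LE.SLG
import Pool.Agent.Helper42.LE.CHR
import Pool.Agent.Helper58.LE.PSI
import Pool.Agent.Helper31.LE.FIN
import Pool.Agent.Helper24.LE.CHB
import Pool.Agent.Helper55.LE.ANN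
import Pool.Agent.Helper19.LE.SUP
import Pool.Agent.Helper49.LE.MOD
import Pool.Agent.Helper26.LE.RCF
import Pool.Agent.Helper32.LE.OME
import Pool.Agent.Helper32.LE.FSIG
import Pool.Agent.Helper51.LE.FRE
import Pool.Agent.Helper22.LE.PIK
import Pool.Agent.Helper50.LE.CH2
import Pool.Agent.Helper8.LE.ADD
import Pool.Agent.Helper2.LE.ST2
import Pool.Agent.Helper81.LE.ST1
import Pool.Agent.Helper11.LE.END
import Pool.Agent.Helper95.LE.FGOO
import Pool.Agent.Helper85.LE.FINF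
import Pool.Agent.Helper94.LE.FLEO
import Pool.Agent.Helper33.LE.FCMU
import Pool.Agent.Helper13.LE.HIL
import Pool.Agent.Helper79.LE.CH1
import Pool.Agent.Helper98.LE.INI
import Pool.Agent.Helper88.LE.SUN

/-!
# Project LE (MP_fc6b1e_nt): assembly
-/

namespace Pool.Agent.Helper11.LE

open NumberField Polynomial Module IsDedekindDomain TensorProduct Pool.Agent.Helper51.SigLeo
open Pool.Agent.Helper51.RP Pool.Agent.Helper42.RD

theorem a_cyc : L_CYC := Pool.Agent.Helper90.LE.l_cyc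

theorem a_chb : L_CHB := Pool.Agent.Helper24.LE.l_chb

theorem a_sup : L_SUP := Pool.Agent.Helper19.LE.l_sup a_chb

theorem a_ann : L_ANN := Pool.Agent.Helper55.LE.l_ann a_chb

theorem a_ome : L_OME := Pool.Agent.Helper32.LE.l_ome Pool.Agent.Helper26.LE.l_rcf a_cyc

theorem a_psi : L_PSI :=
  Pool.Agent.Helper58.LE.l_psi Pool.Agent.Helper88.LE.l_sun (Pool.Agent.Helper96.LE.l_lob Pool.Agent.Helper16.LE.l_log)
    Pool.Agent.Helper61.LE.l_lin Pool.Agent.Helper42.LE.l_chr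

theorem a_ini : L_INI :=
  Pool.Agent.Helper98.LE.l_ini a_ome Pool.Agent.Helper51.LE.l_fre Pool.Agent.Helper22.LE.l_pik
    Pool.Agent.Helper8.LE.l_add

theorem a_ch1 : L_CH1 :=
  Pool.Agent.Helper79.LE.l_ch1 a_cyc Pool.Agent.Helper26.LE.l_rcf Pool.Agent.Helper49.LE.l_mod
    a_ann a_sup Pool.Agent.Helper22.LE.l_pik

theorem a_ch2 : L_CH2 :=
  Pool.Agent.Helper50.LE.l_ch2 a_cyc a_ome Pool.Agent.Helper49.LE.l_mod a_ann a_sup
    Pool.Agent.Helper51.LE.l_fre Pool.Agent.Helper22.LE.l_pik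

theorem a_st1 : L_ST1 :=
  Pool.Agent.Helper81.LE.l_st1 a_cyc Pool.Agent.Helper61.LE.l_slg a_psi a_ch1
    Pool.Agent.Helper8.LE.l_add

theorem a_st2 : L_ST2 :=
  Pool.Agent.Helper2.LE.l_st2 a_cyc a_psi a_ch2 Pool.Agent.Helper8.LE.l_add
    Pool.Agent.Helper61.LE.l_slg

theorem a_end : L_END := l_end Pool.Agent.Helper31.LE.l_fin

theorem a_p1 : L_P1 :=
  Pool.Agent.Helper3.LE.l_p1 Pool.Agent.Helper9.LE.l_la Pool.Agent.Helper13.LE.l_hil
    (Pool.Agent.Helper86.LE.l_mat a_cyc)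

theorem a_goo : F_GOO := Pool.Agent.Helper95.LE.f_goo a_p1 a_cyc

/-- The basic result for one set of places, `p` odd. -/
theorem a_inf : F_INF :=
  Pool.Agent.Helper85.LE.f_inf a_cyc a_ini a_st1 a_st2 a_end a_goo
    (Pool.Agent.Helper86.LE.f_cnt a_cyc)

/-- The `Σ`-Leopoldt statement for the characters of order `p` of infinitely many extensions. -/
theorem a_sig : F_SIG := Pool.Agent.Helper32.LE.f_sig a_inf

/-- The kernel of the `p`-adic regulator does not grow in infinitely many extensions. -/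
theorem a_leo : F_LEO := Pool.Agent.Helper94.LE.f_leo a_inf

theorem a_cmu : F_CMU := Pool.Agent.Helper33.LE.f_cmu

/-- The form of the result for `χ₀ = 1` which is analogous to `RD.E_RSP`. -/
theorem a_twb : ∀ (p : ℕ) [Fact p.Prime], p ≠ 2 → ∀ (K : Type) [Field K]
    [NumberField K] (ιinf : AlgebraicClosure K →+* ℂ) (ιp : AlgebraicClosure K →+* ℂ_[p])
    (L : IwasawaLog p ℂ_[p]) (S : Set (K →+* ℂ)), IsCMType S →
    (∀ σ τ : K →+* AlgebraicClosure K, (∀ x, ‖ιp (σ x)‖ = ‖ιp (τ x)‖) →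
      (ιinf.comp σ ∈ S ↔ ιinf.comp τ ∈ S)) →
  ∀ χ₀ : ((⊥ : IntermediateField K (AlgebraicClosure K)) ≃ₐ[K]
      (⊥ : IntermediateField K (AlgebraicClosure K))) →* ℂ_[p]ˣ,
  {N : IntermediateField K (AlgebraicClosure K) | finrank K N = p ∧ IsGalois K N ∧
    TwistGood p ιinf ιp L S ⊥ χ₀ N}.Infinite := by
  intro p _ hp2 K _ _ ιinf ιp L S hS hord χ₀
  refine (a_sig p hp2 K ιinf ιp L S hS hord).mono ?_
  rintro N ⟨h1, h2, h3⟩
  refine ⟨h1, h2, ?_⟩
  intro H hH χ hχ _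
  rw [bot_sup_eq] at hH
  subst hH
  exact h3 χ hχ

end Pool.Agent.Helper11.LE
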