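import Pool.Agent.Helper42.RD.Goals2

/-!
# Project LE (MP_fc6b1e_nt, the case `χ₀ = 1`): definitions

The `Σ`-Leopoldt conjecture for the nontrivial characters of a cyclic extension `N/K` of odd prime
degree `p` (the case `χ₀ = 1` of the characters `χ₀ φ`, `φ` of order `p`), and the base change of the
case `χ = 1` to the fields `K' = F'K`, `F'/F` cyclic of degree `p`. `K` is any number field, `T` a set of
embeddings of `K` in `k = ℂ_p` which is a union of places; `K₁ = K(ε)` with a primitive `p`-th root of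
unity `ε`. A state `(R, α, a)` is a datum `(R, α)` in the sense of project RD (with `M = K`) together with
an element `a ∈ K₁` of type `ω` which matches it; `N` is the extension with `N(ε) = K₁(a^(1/p))`.
-/

namespace Pool.Agent.Helper11.LE

open NumberField Polynomial Module IsDedekindDomain TensorProduct Pool.Agent.Helper51.SigLeo
open Pool.Agent.Helper51.RP Pool.Agent.Helper42.RD
open Pool.Agent.Helper38.RS (pz gs hf Gf absN)

/-- The rank of the units of `K`, plus one if `K` contains a primitive `p`-th root of unity: the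
dimension of `𝓞_Kˣ` modulo `p`-th powers. -/
noncomputable def urk (p : ℕ) (K : Type) [Field K] [NumberField K] : ℕ :=
  haveI := Classical.propDecidable (∃ ε : K, IsPrimitiveRoot ε p)
  Units.rank K + if (∃ ε : K, IsPrimitiveRoot ε p) then 1 else 0

/-- The Selmer group of the datum `(R, α)` over `K` (there is no `P` here). -/
structure Sel1 {p : ℕ} {k : Type} [NormedField k] {K : Type} [Field K] [NumberField K]
    (L : IwasawaLog p k) (T : Set (K →+* k)) (R : Set (HeightOneSpectrum (𝓞 K)))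
    (al : HeightOneSpectrum (𝓞 K) → K) (x : Kˣ) : Prop where
  loc : ∀ w : HeightOneSpectrum (𝓞 K), LocD p R al w (x : K)
  sig : LocSig L T x

/-- `F` is a finite set of elements with the property `X`, pairwise incongruent modulo `p`-th
powers. -/
def Inc (p : ℕ) {K : Type} [Field K] (X : Kˣ → Prop) (F : Finset Kˣ) : Prop :=
  (∀ x ∈ F, X x) ∧ ∀ x ∈ F, ∀ y ∈ F, x ≠ y → ¬ Pw p (x / y)

/-- `K₁ = K(ε)`, `ε` a primitive `p`-th root of unity. -/
structure Cyc (p : ℕ) (K K₁ : Type) [Field K] [Field K₁] [Algebra K K₁] (ε : K₁) : Prop where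
  prim : IsPrimitiveRoot ε p
  gal : IsGalois K K₁
  gen : ∀ σ : K₁ ≃ₐ[K] K₁, σ ε = ε → σ = 1

/-- A state of the descent: a datum `(R, α)` over `K` and an element `a ∈ 𝓞_{K₁}`, `a ≡ 1 mod p³`, of
type `ω`, which matches it. -/
structure St (p : ℕ) {K K₁ : Type} [Field K] [NumberField K] [Field K₁] [NumberField K₁]
    [Algebra K K₁] (ε : K₁) (R : Set (HeightOneSpectrum (𝓞 K)))
    (al : HeightOneSpectrum (𝓞 K) → K) (a : 𝓞 K₁) : Prop where
  dat : IsDat p R al
  ne : a ≠ 0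
  adm : (p : 𝓞 K₁) ^ 3 ∣ a - 1
  om : OmType p K ε (a : K₁)
  mat : Match p R al (a : K₁)

/-- The state is good: every element of the Selmer group is the product of a power of
`a* = (-1)^(p-1) a` and of a `p`-th power of an element of `K`. -/
def Good {p : ℕ} {k : Type} [NormedField k] {K K₁ : Type} [Field K] [NumberField K] [Field K₁]
    [NumberField K₁] [Algebra K K₁] (L : IwasawaLog p k) (T : Set (K →+* k))
    (R : Set (HeightOneSpectrum (𝓞 K))) (al : HeightOneSpectrum (𝓞 K) → K) (a : 𝓞 K₁) : Prop :=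
  ∀ x : Kˣ, Sel1 L T R al x → ∃ (j : ℕ) (w : Kˣ),
    algebraMap K K₁ (x : K) = ((-1) ^ (p - 1) * (a : K₁)) ^ j * algebraMap K K₁ (w : K) ^ p

/-- The fields of part I: `H/K` is of degree `p` with an automorphism `γ` of order `p`,
`H₁ = K₁(s) = H K₁`, `s^p = a ∈ 𝓞_{K₁}`, `a ≡ 1 mod p³`, `γ₁ s = ε s`, `γ₁` extends `γ`. -/
structure HD (p : ℕ) (K H K₁ H₁ : Type) [Field K] [NumberField K] [Field H] [NumberField H]
    [Field K₁] [NumberField K₁] [Field H₁] [NumberField H₁] [Algebra K H] [Algebra K K₁]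
    [Algebra K₁ H₁] [Algebra H H₁] (γ : H ≃ₐ[K] H) (γ₁ : H₁ ≃ₐ[K₁] H₁) (ε : K₁) (a : 𝓞 K₁)
    (s : H₁) : Prop where
  degH : finrank K H = p
  degH₁ : finrank K₁ H₁ = p
  compat : ∀ x : K, algebraMap K₁ H₁ (algebraMap K K₁ x) = algebraMap H H₁ (algebraMap K H x)
  cop : (finrank K K₁).Coprime p
  gal : IsGalois K K₁
  prim : IsPrimitiveRoot ε p
  ne : a ≠ 0
  adm : (p : 𝓞 K₁) ^ 3 ∣ a - 1
  pow : s ^ p = algebraMap K₁ H₁ (a : K₁)
  γs : γ₁ s = algebraMap K₁ H₁ ε * s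
  ext : ∀ y : H, γ₁ (algebraMap H H₁ y) = algebraMap H H₁ (γ y)
  γo : orderOf γ = p

/-- A family of `n` additive ray class characters modulo `𝔪` with values in `ZMod p` (no condition at
the infinite places; the values at the ideals not prime to `𝔪` are irrelevant). -/
structure Fam (p : ℕ) {F : Type} [Field F] [NumberField F] (𝔪 : Ideal (𝓞 F)) (n : ℕ)
    (η : Fin n → Ideal (𝓞 F) → ZMod p) : Prop where
  ne : 𝔪 ≠ ⊥
  mul : ∀ i I J, I ≠ ⊥ → J ≠ ⊥ → I ⊔ 𝔪 = ⊤ → J ⊔ 𝔪 = ⊤ → η i (I * J) = η i I + η i J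
  ray : ∀ i (α : 𝓞 F), α ≠ 0 → α - 1 ∈ 𝔪 → η i (Ideal.span {α}) = 0

/-- The family is linearly independent. -/
def Ind (p : ℕ) {F : Type} [Field F] [NumberField F] (𝔪 : Ideal (𝓞 F)) (n : ℕ)
    (η : Fin n → Ideal (𝓞 F) → ZMod p) : Prop :=
  ∀ c : Fin n → ZMod p, c ≠ 0 → ∃ I, I ≠ ⊥ ∧ I ⊔ 𝔪 = ⊤ ∧ ∑ i, c i * η i I ≠ 0

/-- The primes `v` prime to `𝔪` with `η(v) = g` or `η(v) = -g`. -/
def Pr (p : ℕ) {F : Type} [Field F] [NumberField F] (𝔪 : Ideal (𝓞 F)) (n : ℕ)
    (η : Fin n → Ideal (𝓞 F) → ZMod p) (g : Fin n → ZMod p) : Set (HeightOneSpectrum (𝓞 F)) :=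
  {v | v.asIdeal ⊔ 𝔪 = ⊤ ∧ ((∀ i, η i v.asIdeal = g i) ∨ ∀ i, η i v.asIdeal = -g i)}

/-- A set of primes is thin if the sum of the `N(v)^(-s)` is bounded for `1 < s ≤ 2`. -/
def Thin {F : Type} [Field F] [NumberField F] (S : Set (HeightOneSpectrum (𝓞 F))) : Prop :=
  ∃ C : ℝ, ∀ s : ℝ, 1 < s → s ≤ 2 → pz S s ≤ C

/-- The sum over the primes of `S` is at most `c log(1/(s-1)) + O(1)`. -/
def Dens {F : Type} [Field F] [NumberField F] (S : Set (HeightOneSpectrum (𝓞 F))) (c : ℝ) : Prop :=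
  ∃ C : ℝ, ∀ s : ℝ, 1 < s → s ≤ 2 → pz S s ≤ c * Real.log (1 / (s - 1)) + C

/-- Independent characters `ψ_1, ..., ψ_n` of the dual Selmer group of the datum `(R, α)`. -/
structure PsiFam {p : ℕ} {k : Type} [NormedField k] {K : Type} [Field K] [NumberField K]
    (L : IwasawaLog p k) (T : Set (K →+* k)) (R : Set (HeightOneSpectrum (𝓞 K)))
    (al : HeightOneSpectrum (𝓞 K) → K) (S : Set (HeightOneSpectrum (𝓞 K))) (𝔪 : Ideal (𝓞 K))
    (n : ℕ) (ψ : Fin n → Ideal (𝓞 K) → ZMod p) : Prop where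
  fin : S.Finite
  sub : R ⊆ S
  abp : ∀ w : HeightOneSpectrum (𝓞 K), w.valuation K (p : K) < 1 → w ∈ S
  cop : ∀ w : HeightOneSpectrum (𝓞 K), w.asIdeal ⊔ 𝔪 = ⊤ ↔ w ∉ S
  fam : Fam p 𝔪 n ψ
  ind : Ind p 𝔪 n ψ
  dual : ∀ (x : Kˣ) (Z : Finset (HeightOneSpectrum (𝓞 K))), (∀ w ∈ Z, w ∉ S) →
    (∀ w, w ∉ Z → LocD p R al w (x : K)) → LocSig L T x →
    ∀ i, ∑ w ∈ Z, ((ordv w (x : K) : ℤ) : ZMod p) * ψ i w.asIdeal = 0

/-- The kernel of the `p`-adic regulator map `k ⊗ 𝓞_Kˣ → ∏_τ k`, `u ↦ (log_p τ(u))_τ`. -/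
noncomputable def LKer {p : ℕ} {k : Type} [NormedField k] (L : IwasawaLog p k) (K : Type) [Field K] :
    Submodule k (k ⊗[ℤ] Additive (𝓞 K)ˣ) :=
  ⨅ τ : K →+* k, LinearMap.ker (extHom (logUnits L τ))

/-- The dimension of the kernel of the `p`-adic regulator map: the rank of the units minus the rank of
the matrix `(log_p τ(ε_i))`. -/
noncomputable def defect {p : ℕ} {k : Type} [NormedField k] (L : IwasawaLog p k) (K : Type)
    [Field K] : ℕ := finrank k (LKer L K)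

/-- The `T`-Leopoldt statement for the nontrivial characters of `Gal(N/K)`: an element of `k ⊗ 𝓞_Nˣ`
which is an eigenvector of some `γ ∈ Gal(N/K)` for a primitive `p`-th root of unity and is killed by
the logarithms of the embeddings above `T` is zero. -/
def NGood {p : ℕ} {k : Type} [NormedField k] (L : IwasawaLog p k) {K : Type} [Field K]
    (T : Set (K →+* k)) (N : Type) [Field N] [Algebra K N] : Prop :=
  ∀ (γ : N ≃ₐ[K] N) (ε' : k), IsPrimitiveRoot ε' p → ∀ z : k ⊗[ℤ] Additive (𝓞 N)ˣ,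
    extEnd (unitsHom γ) z = ε' • z →
    (∀ τ ∈ (above T : Set (N →+* k)), extHom (logUnits L τ) z = 0) → z = 0

end Pool.Agent.Helper11.LE
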