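import Pool.Agent.Helper11.LE.Goals2

/-!
# Project LE, part IV: the descent, and the final statements
-/

namespace Pool.Agent.Helper11.LE

open NumberField Polynomial Module IsDedekindDomain TensorProduct Pool.Agent.Helper51.SigLeo
open Pool.Agent.Helper51.RP Pool.Agent.Helper42.RD Pool.Agent.Helper38.RSP
open Pool.Agent.Helper38.RS (pz gs hf Gf absN)

/-- **L_ADD** (the state `(R ∪ Z', α', a b)`). Let `(R, α, a)` be a state, `b ∈ 𝓞_{K₁}` of type `ω`,
`b ≡ 1 mod p³ a`, and `Z'` a finite set of primes of `K`, not in `R`, prime to `p`, such that the valuation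
of `b` is prime to `p` exactly at the primes above `Z'`, which have trivial decomposition groups. There is
a state `(R ∪ Z', α', a b)` with `α' = α` on `R`.

PROOF. *The fields at `w ∈ Z'`.* Let `W` be a prime of `K₁` above `w`. `FreeP K W` gives `e = f = 1`
(`Gal(K₁/K)` is transitive on the primes above `w`, with trivial stabilizers, so there are `[K₁ : K]` of
them and `∑ e f = [K₁ : K]`), so `ord_W = ord_w` on `K` and `𝓞_K/w = 𝓞_{K₁}/W`. `ε` has order `p` modulo `W`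
(`W ∤ p`; `∏_{0<i<p} (1 - ε^i) = p`), so `p ∣ N(W) - 1 = N(w) - 1`.
*Choice of `α' w`, `w ∈ Z'`.* `p ∣ ord_W(a)` by `Match.free` (`w ∉ R`; every prime of `K` is `FreeP K`
because `Gal(K/K)` is trivial), so `n = ord_W(z)` is prime to `p`, `z = (-1)^(p-1) a b`. Let `t n = 1 + p k`,
`t ∈ ℕ`, `k ∈ ℤ`, `c₀ ∈ K` with `ord_w(c₀) = 1`. `u = z^t c₀^(-p k - 1)` has valuation `0` at `W`; let
`r ∈ 𝓞_K` with `r ≡ u mod W` and `α' w = c = c₀ r`: `ord_w(c) = 1` and
`z^t c^(-1) (c₀^(-k))^p = u/r ≡ 1 mod W`. Let `t t' = 1 + p l` with `t', l ∈ ℕ`: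
`(z^t c^(-1))^(t') = z z^(p l) c^(-t')`, so `z c^((p-1) t')` is locally a `p`-th power at `W`.
*IsDat*: `stable` and `const` are trivial over `K`, the rest is clear or proved above. *adm, ne* clear.
*om*: `τ a = a^n c^p`, `τ b = b^(n') c'^p` with `ε^n = ε^(n')`, `n ≡ n' mod p`. *Match.free*: `w ∉ R ∪ Z'`,
so `p ∣ ord_W(a)`, `p ∣ ord_W(b)`. *Match.ram*: `w ∈ Z'`: above. `w ∈ R`: let `W` be given by `Match.ram`
for `a`; as `p ∤ ord_W(a)` and `a` is an integer, `W ∣ a`, so `b ≡ 1 mod W`, `ord_W(a b) = ord_W(a)` and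
`(a b)* α^j y^p = b (a* α^j y^p) ≡ 1 mod W`. -/
def L_ADD : Prop :=
  ∀ (p : ℕ) [Fact p.Prime] (K K₁ : Type) [Field K] [NumberField K] [Field K₁] [NumberField K₁]
    [Algebra K K₁] (ε : K₁), Cyc p K K₁ ε →
  ∀ (R : Set (HeightOneSpectrum (𝓞 K))) (al : HeightOneSpectrum (𝓞 K) → K) (a : 𝓞 K₁),
    St p ε R al a →
  ∀ (b : 𝓞 K₁) (Z' : Finset (HeightOneSpectrum (𝓞 K))), b ≠ 0 →
    b - 1 ∈ Ideal.span {(p : 𝓞 K₁) ^ 3 * a} → OmType p K ε (b : K₁) →
    (∀ w ∈ Z', w ∉ R ∧ w.valuation K (p : K) = 1) →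
    (∀ (W : HeightOneSpectrum (𝓞 K₁)) (w : HeightOneSpectrum (𝓞 K)), Above W w →
      (w ∈ Z' → FreeP K W ∧ ¬ (p : ℤ) ∣ ordv W (b : K₁)) ∧
      (w ∉ Z' → (p : ℤ) ∣ ordv W (b : K₁))) →
  ∃ al' : HeightOneSpectrum (𝓞 K) → K, St p ε (R ∪ (Z' : Set (HeightOneSpectrum (𝓞 K)))) al' (a * b) ∧
    ∀ w ∈ R, al' w = al w

/-- **L_INI** (initial state). For every finite set `Z` of primes of `K` there is a state whose set `R`
contains a prime `w ∉ Z`.

PROOF (from `L_OME`, `L_FRE`, `L_PIK`, `L_ADD`). `(∅, α, 1)` is a state (`α` arbitrary; `OmType`: `τ ε` is a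
power of `ε`). Let `𝔫'`, `η` be given by `L_OME` for `𝔫 = (p³)`, and `Z₁` by `L_FRE`. By `L_PIK` (with
`A₁ = A₂ = B = ∅`, `c₁ = c₂ = 0`) there are infinitely many primes of `K₁` of prime norm, outside `Z₁`,
prime to `𝔫'` (hence to `p`) and not above `Z`. Finitely many primes of `K₁` are above a given prime of `K`
and the family `η` has finitely many values, so by the pigeonhole principle there are two such primes
`Q₁, Q₂`, above different primes `q₁ ≠ q₂` of `K`, with `η_j(Q₁) = η_j(Q₂)` for all `j`. `L_OME` (ii) with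
`s = (1, -1)` gives `b`; the primes of `K₁` above `q_i` are the conjugates of `Q_i`, which satisfy `FreeP`
as `Q_i` does. Apply `L_ADD` with `R = ∅`, `a = 1`, `Z' = {q₁, q₂}`. -/
def L_INI : Prop :=
  ∀ (p : ℕ) [Fact p.Prime] (K K₁ : Type) [Field K] [NumberField K] [Field K₁] [NumberField K₁]
    [Algebra K K₁] (ε : K₁), Cyc p K K₁ ε →
  ∀ Z : Set (HeightOneSpectrum (𝓞 K)), Z.Finite →
  ∃ (R : Set (HeightOneSpectrum (𝓞 K))) (al : HeightOneSpectrum (𝓞 K) → K) (a : 𝓞 K₁),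
    St p ε R al a ∧ ∃ w ∈ R, w ∉ Z

/-- The descent step: from the state `(R, α, a)` to a larger state with smaller Selmer group. -/
def Stp {p : ℕ} {k : Type} [NormedField k] {K K₁ : Type} [Field K] [NumberField K] [Field K₁]
    [NumberField K₁] [Algebra K K₁] (L : IwasawaLog p k) (ε : K₁) (T : Set (K →+* k))
    (R : Set (HeightOneSpectrum (𝓞 K))) (al : HeightOneSpectrum (𝓞 K) → K) : Prop :=
  ∃ (R' : Set (HeightOneSpectrum (𝓞 K))) (al' : HeightOneSpectrum (𝓞 K) → K) (a' : 𝓞 K₁),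
    St p ε R' al' a' ∧ R ⊆ R' ∧
    ∀ n : ℕ, (∀ F : Finset Kˣ, Inc p (Sel1 L T R al) F → F.card ≤ n) →
      ∀ F : Finset Kˣ, Inc p (Sel1 L T R' al') F → p * F.card ≤ n

/-- **L_ST2** (the step, `K` does not contain the `p`-th roots of unity).

PROOF (from `L_CYC`, `L_PSI`, `L_CH2`, `L_ADD`). As the state is not good there is `x₀ ∈ Sel1` which is not
`a*^j w^p`; in particular (`j = 0`) `x₀` is not a `p`-th power in `K`. The `p` elements `x₀^i`, `0 ≤ i < p`,
are in `Sel1` (a subgroup, `L_SLG`) and pairwise incongruent (if `x₀^i` is a `p`-th power and `p ∤ i`, so is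
`x₀`). By `L_CYC` `urk p K = Units.rank K`, so `L_PSI` applies with `r = 1`, `n = 2`:
`2 + rank ≤ 1 + |T|`. It gives `S`, `𝔪`, `ψ_1, ψ_2`. `L_CH2` with `𝔫 = (p³ a)`, `Z = S` gives `b`, `Z'`; the
`w ∈ Z'` are not in `S`, so they are not in `R` and prime to `p` (`PsiFam.sub`, `abp`). `L_ADD` gives `α'`;
`R' = R ∪ Z'`, `a' = a b`.
Let `x ∈ Sel1' = Sel1 L T R' α'`. For `w ∉ Z'`, `LocD p R α w x` (`α' = α` on `R`; `w ∉ R'` if `w ∉ R`); so
`PsiFam.dual` gives `∑_{w ∈ Z'} ord_w(x) ψ_i(w) = 0` and by `L_CH2` `p ∣ ord_w(x)` for `w ∈ Z'`. So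
`x ∈ Sel1`. Moreover for `w ∈ Z'`: `x α'^i` is locally a `p`-th power at `w`, so `p ∣ ord_w(x) + i`,
`p ∣ i`, and `LocPow p w x`.
*Counting.* Let `F'` be as in `Inc` for `Sel1'`. The elements `x x₀^i`, `x ∈ F'`, `0 ≤ i < p`, are in `Sel1`
and pairwise incongruent: let `x x₀^i = y x₀^j z^p`; at the prime `w ∈ Z'` where `x₀` is not locally a
`p`-th power, `x` and `y` are (locally `p`-th powers form a group), so `x₀^(i-j)` is one, `i = j`, and then
`x = y z^p`, `x = y`. So `p |F'| ≤ n`. -/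
def L_ST2 : Prop :=
  ∀ (p : ℕ) [Fact p.Prime], p ≠ 2 → ∀ (k : Type) [NormedField k] [NormedAlgebra ℚ_[p] k]
    [IsUltrametricDist k] [CompleteSpace k], Nonempty (AlgebraicClosure ℚ →+* k) →
  ∀ (L : IwasawaLog p k) (K K₁ : Type) [Field K] [NumberField K] [Field K₁] [NumberField K₁]
    [Algebra K K₁] (ε : K₁), Cyc p K K₁ ε → 1 < finrank K K₁ →
  ∀ (T : Set (K →+* k)), Units.rank K + 1 ≤ T.ncard →
  ∀ (R : Set (HeightOneSpectrum (𝓞 K))) (al : HeightOneSpectrum (𝓞 K) → K) (a : 𝓞 K₁),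
    St p ε R al a → ¬ Good L T R al a → Stp (K₁ := K₁) L ε T R al

/-- **L_ST1** (the step, `K` contains the `p`-th roots of unity, `K₁ = K`).

PROOF (from `L_CYC`, `L_SLG`, `L_PSI`, `L_CH1`, `L_ADD`). Let `x₀ = a* = (-1)^(p-1) a ∈ Sel1` (`L_SLG`); it is not a
`p`-th power since `p ∤ ord_w(a)` for `w ∈ R ≠ ∅` (`Match.ram`; the only prime above `w` is `w`). As the
state is not good there is `x₁ ∈ Sel1` which is not `a*^j w^p`. If `x₀^i x₁^j` is a `p`-th power, then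
`p ∣ j` (otherwise, with `j j' ≡ 1 mod p`, `x₁` is `x₀^((p-1) i j')` times a `p`-th power) and so `p ∣ i`.
So the `p²` elements `x₀^i x₁^j`, `0 ≤ i, j < p`, of `Sel1` are pairwise incongruent. `urk p K = rank + 1`;
`L_PSI` applies with `r = 2`, `n = 2`: `2 + rank + 1 ≤ 2 + |T|`. It gives `S`, `𝔪`, `ψ`. `L_CH1` with
`𝔫 = (p³ a)`, `Z = S` gives `b`, `Z'`. `L_ADD` (`FreeP K w` and `OmType` are trivial because `Gal(K/K)` is)
gives `α'`; `R' = R ∪ Z'`, `a' = a b`. Let `Sel1' = Sel1 L T R' α'`, a subgroup containing `y = (a b)*`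
(`L_SLG`), and `Sel'' = {x ∈ Sel1 : LocPow p w x for all w ∈ Z'}`.
*`Sel1' ⊆ ⟨y⟩ Sel''`.* Let `x ∈ Sel1'`. As in `L_ST2`, `∑_{w ∈ Z'} ord_w(x) ψ_i(w) = 0`, so by `L_CH1` there is
`t` with `ord_w(x) ≡ t ord_w(b) mod p` for `w ∈ Z'`. `p ∣ ord_w(a)` for `w ∈ Z'` (`Match.free`), so
`x' = x y^(-t)` is in `Sel1'` and `p ∣ ord_w(x')` for `w ∈ Z'`; as in `L_ST2` `x' ∈ Sel''`.
*Counting.* Let `F'` be as in `Inc` for `Sel1'` and `F'_t`, `0 ≤ t < p`, the set of the `x ∈ F'` with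
`ord_w(x) ≡ t ord_w(b)` on `Z'`. The elements `x y^(-t) x₀^i x₁^j`, `x ∈ F'_t`, `0 ≤ i, j < p`, are in
`Sel1`, and pairwise incongruent: if `x y^(-t) x₀^i x₁^j = x' y^(-t) x₀^(i') x₁^(j') z^p` then
`x₀^(i + (p-1) i') x₁^(j + (p-1) j')` is a local `p`-th power on `Z'`, so `i = i'`, `j = j'` by `L_CH1`,
and `x = x' z^p`, `x = x'`. So `p² |F'_t| ≤ n`; sum over `t`: `p² |F'| ≤ p n`. -/
def L_ST1 : Prop :=
  ∀ (p : ℕ) [Fact p.Prime], p ≠ 2 → ∀ (k : Type) [NormedField k] [NormedAlgebra ℚ_[p] k]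
    [IsUltrametricDist k] [CompleteSpace k], Nonempty (AlgebraicClosure ℚ →+* k) →
  ∀ (L : IwasawaLog p k) (K : Type) [Field K] [NumberField K] (ε : K), IsPrimitiveRoot ε p →
  ∀ (T : Set (K →+* k)), Units.rank K + 1 ≤ T.ncard →
  ∀ (R : Set (HeightOneSpectrum (𝓞 K))) (al : HeightOneSpectrum (𝓞 K) → K) (a : 𝓞 K),
    St p ε R al a → R.Nonempty → ¬ Good L T R al a → Stp (K₁ := K) L ε T R al

/-- **L_END** (the descent ends). If the step is possible for every state with `R ≠ ∅` which is not good,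
then from a state with `w₀ ∈ R` one reaches a good state with `w₀ ∈ R`.

PROOF (from `L_FIN`). Induction on the bound `n` for the cardinalities of the `F` with `Inc p (Sel1 ..) F`
(`L_FIN`): after a step the cardinalities are `≤ n/p`, and `1 ≤ n` because `F = {1}` is admissible, so
`n/p < n`. -/
def L_END : Prop :=
  ∀ (p : ℕ) [Fact p.Prime] (k : Type) [NormedField k] [NormedAlgebra ℚ_[p] k]
  (L : IwasawaLog p k) (K K₁ : Type) [Field K] [NumberField K] [Field K₁] [NumberField K₁]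
    [Algebra K K₁] (ε : K₁) (T : Set (K →+* k)),
    (∀ (R : Set (HeightOneSpectrum (𝓞 K))) (al : HeightOneSpectrum (𝓞 K) → K) (a : 𝓞 K₁),
      St p ε R al a → R.Nonempty → ¬ Good L T R al a → Stp (K₁ := K₁) L ε T R al) →
  ∀ w₀ : HeightOneSpectrum (𝓞 K),
    (∃ (R : Set (HeightOneSpectrum (𝓞 K))) (al : HeightOneSpectrum (𝓞 K) → K) (a : 𝓞 K₁),
      St p ε R al a ∧ w₀ ∈ R) →
  ∃ (R : Set (HeightOneSpectrum (𝓞 K))) (al : HeightOneSpectrum (𝓞 K) → K) (a : 𝓞 K₁),
    St p ε R al a ∧ w₀ ∈ R ∧ Good L T R al a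

/-- **F_GOO** (a good state gives a good extension). Let `(R, α, a)` be a good state, `j : K₁ → Ω` an
embedding over `K`, `s ∈ Ω`, `s^p = j(a)`, `s ∉ j(K₁)`, and `N/K` Galois of degree `p` in `Ω` with `s` in the
compositum of `N` and `j(K₁)`. Then `NGood L T N`.

PROOF (from `L_CYC`, `L_P1`; as `RD.E_GOO` with `M = K`). Let `K₁' = j(K₁)` and `H₁ ⊆ Ω` the compositum of `K₁'` and
`N`. `Ω/H₁` is Galois, so `s ∈ H₁`. `H₁/K₁'` is Galois with group embedded in `Gal(N/K)`, of order `1` or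
`p`; it is `p` as `s ∉ K₁'`. So `H₁ = K₁'(s)`, and there is `γ₁ ∈ Gal(H₁/K₁')` with `γ₁ s = j(ε) s`. Its
restriction `γ₀` to `N` is not trivial (`H₁` is generated by `N` and `K₁'`), so it has order `p`. `HD` holds
for `H = N`, `γ₀`, `γ₁`, with the algebra structures `K₁ → H₁` (`j`) and `N ⊆ H₁`. Let `γ`, `ε'`, `z` be as in
`NGood` and suppose `z ≠ 0`. `γ ≠ 1` because `ε' ≠ 1`; `Gal(N/K)` has prime order, so `γ₀ = γ^c` with
`p ∤ c`; `γ₀ z = ε'^c z`, `ε'^c` is a primitive `p`-th root of unity, and `L_P1` gives `z = 0`. -/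
def F_GOO : Prop :=
  ∀ (p : ℕ) [Fact p.Prime] (k : Type) [NormedField k] [NormedAlgebra ℚ_[p] k]
    [IsUltrametricDist k] [CompleteSpace k], Nonempty (AlgebraicClosure ℚ →+* k) →
  ∀ (L : IwasawaLog p k) (K K₁ : Type) [Field K] [NumberField K] [Field K₁] [NumberField K₁]
    [Algebra K K₁] (ε : K₁), Cyc p K K₁ ε → ∀ (T : Set (K →+* k)), PlaceClosed T →
  ∀ (R : Set (HeightOneSpectrum (𝓞 K))) (al : HeightOneSpectrum (𝓞 K) → K) (a : 𝓞 K₁),
    St p ε R al a → Good L T R al a →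
  ∀ (j : K₁ →+* AlgebraicClosure K),
    (∀ x : K, j (algebraMap K K₁ x) = algebraMap K (AlgebraicClosure K) x) →
  ∀ s : AlgebraicClosure K, s ^ p = j a → (¬ ∃ y : K₁, j y = s) →
  ∀ N : IntermediateField K (AlgebraicClosure K), finrank K N = p → IsGalois K N →
    (∀ g : AlgebraicClosure K ≃ₐ[K] AlgebraicClosure K, (∀ y ∈ N, g y = y) →
      (∀ x : K₁, g (j x) = j x) → g s = s) →
  NGood L T N

/-- **F_CNT** (infinitely many `N`). Let `X` be a property of the intermediate fields `N`. Suppose that for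
every finite set `Z` of primes of `K` there is `a ∈ 𝓞_{K₁}` of type `ω` whose valuation is prime to `p` at a
prime above some `w ∉ Z`, such that every Galois extension `N/K` of degree `p` for which the `p`-th roots of
`a` are in the compositum of `N` and `K₁` has the property `X`. Then there are infinitely many such `N`.

PROOF (from `RD.E_KUM`, `L_CYC`; see the last part of the proof of `RD.E_RSP`). Let `K₁' = j(K₁)`;
`K₁' = K(j ε)` (by `Cyc.gen` the group of `K₁/K(ε)` is trivial). Suppose that the set is contained in a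
finite set `𝒩` of Galois extensions of degree `p`. For `N ∈ 𝒩`: `[N K₁' : K₁'] = p` (coprime degrees,
`L_CYC`), cyclic, so by Kummer theory (`exists_root_adjoin_eq_top_of_isCyclic`) there is
`s_N ∈ N K₁'`, `s_N ∉ K₁'`, with `s_N^p = j(a_N)`, `a_N ∈ K₁`. Let `Z` be the finite set of the primes of `K`
below the primes `W` with `ord_W(a_N) ≠ 0` for some `N ∈ 𝒩`. Let `a`, `W`, `w` be given by the hypothesis.
`a` is not a `p`-th power in `K₁`, because `p ∤ ord_W(a)`. `E_KUM` (for `j ε` and `j a ∈ K(j ε)`, of type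
`ω`) gives `N` with `s ∈ N K₁'` for `s^p = j(a)`; `s ∉ K₁'`. So `X N` and `N ∈ 𝒩`. Then `s` and `s_N`
generate the same extension `N K₁'` of `K₁'` of degree `p`. Let `γ` be the generator of its Galois group
with `γ s = j(ε) s`; `γ s_N = j(ε)^i s_N` with `p ∤ i`. `s_N s^(-i)` is fixed by `γ`, so
`a_N = c^p a^i` with `c ∈ K₁`, `ord_W(a_N) ≡ i ord_W(a) ≢ 0 mod p` and `w ∈ Z`, a contradiction. -/
def F_CNT : Prop :=
  ∀ (p : ℕ) [Fact p.Prime] (K K₁ : Type) [Field K] [NumberField K] [Field K₁] [NumberField K₁]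
    [Algebra K K₁] (ε : K₁), Cyc p K K₁ ε →
  ∀ (j : K₁ →+* AlgebraicClosure K),
    (∀ x : K, j (algebraMap K K₁ x) = algebraMap K (AlgebraicClosure K) x) →
  ∀ X : IntermediateField K (AlgebraicClosure K) → Prop,
    (∀ Z : Set (HeightOneSpectrum (𝓞 K)), Z.Finite →
      ∃ a : 𝓞 K₁, a ≠ 0 ∧ OmType p K ε (a : K₁) ∧
        (∃ (W : HeightOneSpectrum (𝓞 K₁)) (w : HeightOneSpectrum (𝓞 K)), Above W w ∧ w ∉ Z ∧
          ¬ (p : ℤ) ∣ ordv W (a : K₁)) ∧
        ∀ s : AlgebraicClosure K, s ^ p = j a → (¬ ∃ y : K₁, j y = s) →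
        ∀ N : IntermediateField K (AlgebraicClosure K), finrank K N = p → IsGalois K N →
          (∀ g : AlgebraicClosure K ≃ₐ[K] AlgebraicClosure K, (∀ y ∈ N, g y = y) →
            (∀ x : K₁, g (j x) = j x) → g s = s) → X N) →
  {N : IntermediateField K (AlgebraicClosure K) | finrank K N = p ∧ IsGalois K N ∧ X N}.Infinite

/-- **F_INF** (the theorem for a set `T` of places). Let `p` be odd, `K` a number field, `T` a set of
embeddings of `K` in `k`, a union of places, with `|T| ≥ rank(𝓞_Kˣ) + 1`. There are infinitely many cyclic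
extensions `N/K` of degree `p` such that the `T`-Leopoldt statement holds for the nontrivial characters
of `Gal(N/K)`.

PROOF (from `L_CYC`, `L_INI`, `L_ST1`, `L_ST2`, `L_END`, `F_GOO`, `F_CNT`). If `K` contains a primitive `p`-th root of
unity `ε` let `K₁ = K`, otherwise let `K₁ = K(ε)` in the algebraic closure (`[K₁ : K] > 1`); `j` is the
inclusion; `Cyc` holds (`K(ε)/K` is Galois, a splitting field of `X^p - 1`). Apply `F_CNT` with
`X N = NGood L T N`: for `Z` finite `L_INI` gives a state with `w₀ ∈ R ∖ Z`, `L_END` and `L_ST1` or `L_ST2`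
a good state `(R, α, a)` with `w₀ ∈ R`, `Match.ram` a prime `W` above `w₀` with `p ∤ ord_W(a)`, and
`F_GOO` the last condition. -/
def F_INF : Prop :=
  ∀ (p : ℕ) [Fact p.Prime], p ≠ 2 → ∀ (k : Type) [NormedField k] [NormedAlgebra ℚ_[p] k]
    [IsUltrametricDist k] [CompleteSpace k], Nonempty (AlgebraicClosure ℚ →+* k) →
  ∀ (L : IwasawaLog p k) (K : Type) [Field K] [NumberField K] (T : Set (K →+* k)),
    PlaceClosed T → Units.rank K + 1 ≤ T.ncard →
  {N : IntermediateField K (AlgebraicClosure K) | finrank K N = p ∧ IsGalois K N ∧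
    NGood L T N}.Infinite

/-- **F_SIG** (the `Σ`-Leopoldt conjecture for infinitely many characters of order `p`, the case
`χ₀ = 1`).

PROOF (from `F_INF`). `K` is totally complex (an embedding equal to its conjugate contradicts `IsCMType`).
`T = TSet ιinf ιp S`: as in the proof of `RD.E_RSP`, `T` is a union of places and `2 |T| = [K : ℚ]`;
`Units.rank K + 1 = [K : ℚ]/2`. Let `N` be as in `F_INF`, `χ` injective and `γ` a generator of `Gal(N/K)`,
`x ∈ k ⊗ 𝓞_Nˣ`, `z = eChi x`, killed by all `ℓ ∈ logSigma`. `γ z = χ(γ) z`, and `χ(γ)` is a primitive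
`p`-th root of unity. If `τ ∈ above T`, then `τ = ιp ∘ σ` with `σ : N → Ω` (its values are algebraic over
`ℚ`) and `logUnits L τ ∈ logSigma` (see `RD.E_GOO`), so it kills `z`. By `NGood`, `z = 0`. -/
def F_SIG : Prop :=
  ∀ (p : ℕ) [Fact p.Prime], p ≠ 2 → ∀ (K : Type) [Field K] [NumberField K]
    (ιinf : AlgebraicClosure K →+* ℂ) (ιp : AlgebraicClosure K →+* ℂ_[p]) (L : IwasawaLog p ℂ_[p])
    (S : Set (K →+* ℂ)), IsCMType S →
    (∀ σ τ : K →+* AlgebraicClosure K, (∀ x, ‖ιp (σ x)‖ = ‖ιp (τ x)‖) →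
      (ιinf.comp σ ∈ S ↔ ιinf.comp τ ∈ S)) →
  {N : IntermediateField K (AlgebraicClosure K) | finrank K N = p ∧ IsGalois K N ∧
    ∀ χ : (N ≃ₐ[K] N) →* ℂ_[p]ˣ, Function.Injective χ →
      InjectiveOn (finrank K N) χ unitsHom (logSigma ιinf ιp S L)}.Infinite

/-- **F_LEO** (the kernel of the `p`-adic regulator does not grow in infinitely many cyclic extensions
of degree `p`).

PROOF (from `F_INF`). Let `T` be the set of all embeddings of `K` in `k = ℂ_p`: a union of places, with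
`[K : ℚ] = r₁ + 2 r₂ ≥ r₁ + r₂ = rank + 1` elements. Let `N` be as in `F_INF`, `γ` a generator of
`Gal(N/K)`, `V = LKer L N`, stable under `γ` (`logUnits L τ ∘ γ = logUnits L (τ ∘ γ)`). For `z ∈ V` and a
`p`-th root of unity `ε' ∈ k` let `z_{ε'} = p⁻¹ ∑_{l<p} ε'^(-l) γ^l z ∈ V`: `γ z_{ε'} = ε' z_{ε'}` and
`z = ∑_{ε'} z_{ε'}`; by `NGood` `z_{ε'} = 0` for `ε' ≠ 1`; so `z = z_1` and `γ z = z`. Let
`i : k ⊗ 𝓞_Kˣ → k ⊗ 𝓞_Nˣ` be the natural map, `Nm : k ⊗ 𝓞_Nˣ → k ⊗ 𝓞_Kˣ` the norm: `Nm ∘ i = p`, so `i` is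
injective, and `i (Nm z) = ∑_l γ^l z = p z` if `γ z = z`. So `V` is contained in the image of `i`. As
`(extHom (logUnits L τ))(i u) = (extHom (logUnits L (τ|_K))) u` for the embeddings `τ` of `N`, and every
embedding of `K` in `k` extends to `N` (`k` is algebraically closed), `i⁻¹(V) = LKer L K`. So `i` is an
isomorphism of `LKer L K` and `V`. -/
def F_LEO : Prop :=
  ∀ (p : ℕ) [Fact p.Prime], p ≠ 2 → ∀ (L : IwasawaLog p ℂ_[p]) (K : Type) [Field K]
    [NumberField K],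
  {N : IntermediateField K (AlgebraicClosure K) | finrank K N = p ∧ IsGalois K N ∧
    defect L N = defect L K}.Infinite

/-- **F_CMU** (the case `χ = 1` of the `Σ`-Leopoldt conjecture for a CM field). Let `F` be totally real, `K/F`
quadratic and totally complex, `T` a set of embeddings of `K` in `k` whose restrictions to `F` are all the
embeddings of `F` in `k`. An element of `k ⊗ 𝓞_Kˣ` killed by the logarithms of the embeddings in `T` is
always zero iff `LKer L F = 0`.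

PROOF. Let `c` be the nontrivial automorphism of `K/F`. In every embedding of `K` in `ℂ` it is the complex
conjugation, so for a unit `u` of `K` all the conjugates of `u/c(u)` have absolute value 1, and `u/c(u)` is
a root of unity (Kronecker): `u^2 = (u/c(u)) (u c(u))`, `u c(u) ∈ 𝓞_Fˣ`. So the natural map
`i : k ⊗ 𝓞_Fˣ → k ⊗ 𝓞_Kˣ` is surjective; it is injective (the norm composed with `i` is `2`). For `τ ∈ T`,
`(extHom (logUnits L τ)) (i z) = (extHom (logUnits L (τ|_F))) z`. -/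
def F_CMU : Prop :=
  ∀ (p : ℕ) [Fact p.Prime] (k : Type) [NormedField k] [NormedAlgebra ℚ_[p] k] (L : IwasawaLog p k)
    (F K : Type) [Field F] [NumberField F] [IsTotallyReal F] [Field K] [NumberField K]
    [IsTotallyComplex K] [Algebra F K], finrank F K = 2 →
  ∀ T : Set (K →+* k), (∀ τ₀ : F →+* k, ∃ τ ∈ T, τ.comp (algebraMap F K) = τ₀) →
  ((∀ z : k ⊗[ℤ] Additive (𝓞 K)ˣ, (∀ τ ∈ T, extHom (logUnits L τ) z = 0) → z = 0) ↔
    LKer L F = ⊥)

end Pool.Agent.Helper11.LE
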